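import Mathlib

set_option autoImplicit false

namespace Pool.Agent.Helper388_RankOneT

section

variable {Γ : Type*} [Group Γ] {H : Type*} [NormedAddCommGroup H] [InnerProductSpace ℂ H]
  [CompleteSpace H] (ρ : Γ →* unitary (H →L[ℂ] H))

/-- the action of a group element through a unitary representation -/
noncomputable def act (g : Γ) (v : H) : H := (ρ g : H →L[ℂ] H) v

lemma act_def (g : Γ) (v : H) : act ρ g v = (ρ g : H →L[ℂ] H) v := rfl

@[simp] lemma act_one (v : H) : act ρ 1 v = v := by simp [act]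

lemma act_mul (g h : Γ) (v : H) : act ρ (g * h) v = act ρ g (act ρ h v) := by
  simp [act]

@[simp] lemma act_zero (g : Γ) : act ρ g (0 : H) = 0 := by simp [act]

lemma act_add (g : Γ) (v w : H) : act ρ g (v + w) = act ρ g v + act ρ g w := by simp [act]

lemma act_sub (g : Γ) (v w : H) : act ρ g (v - w) = act ρ g v - act ρ g w := by simp [act]

lemma act_smul (g : Γ) (c : ℂ) (v : H) : act ρ g (c • v) = c • act ρ g v := by simp [act]

lemma act_sum {ι : Type*} (s : Finset ι) (g : Γ) (f : ι → H) :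
    act ρ g (∑ i ∈ s, f i) = ∑ i ∈ s, act ρ g (f i) := by simp [act]

lemma inner_act_act (g : Γ) (v w : H) : inner ℂ (act ρ g v) (act ρ g w) = (inner ℂ v w : ℂ) := by
  have h : star ((ρ g : H →L[ℂ] H)) * (ρ g : H →L[ℂ] H) = 1 := Unitary.coe_star_mul_self (ρ g)
  have h2 : star ((ρ g : H →L[ℂ] H)) ((ρ g : H →L[ℂ] H) w) = w := by
    have h3 : (star ((ρ g : H →L[ℂ] H)) * (ρ g : H →L[ℂ] H)) w = w := by rw [h]; rfl
    exact h3
  rw [act, act, ← ContinuousLinearMap.adjoint_inner_right, ← ContinuousLinearMap.star_eq_adjoint, h2]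

lemma inner_act_left (g : Γ) (v w : H) :
    inner ℂ (act ρ g v) w = (inner ℂ v (act ρ g⁻¹ w) : ℂ) := by
  have h := inner_act_act ρ g v (act ρ g⁻¹ w)
  rw [← h, ← act_mul, mul_inv_cancel, act_one]

lemma inner_act_right (g : Γ) (v w : H) :
    inner ℂ v (act ρ g w) = (inner ℂ (act ρ g⁻¹ v) w : ℂ) := by
  rw [inner_act_left, inv_inv]

lemma norm_act (g : Γ) (v : H) : ‖act ρ g v‖ = ‖v‖ := by
  have h := inner_act_act ρ g v v
  have h1 : ‖act ρ g v‖ ^ 2 = ‖v‖ ^ 2 := by
    have a := inner_self_eq_norm_sq (𝕜 := ℂ) (act ρ g v)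
    have b := inner_self_eq_norm_sq (𝕜 := ℂ) v
    rw [← a, ← b, h]
  exact (sq_eq_sq₀ (norm_nonneg _) (norm_nonneg _)).1 h1

lemma act_fixed_inv {g : Γ} {v : H} (h : act ρ g v = v) : act ρ g⁻¹ v = v := by
  conv_lhs => rw [← h]
  rw [← act_mul, inv_mul_cancel, act_one]

variable [Fintype Γ]

/-- average over a finite group -/
noncomputable def Av (v : H) : H := (Fintype.card Γ : ℂ)⁻¹ • ∑ g : Γ, act ρ g v

omit [CompleteSpace H] in
lemma cardG_ne_zero : (Fintype.card Γ : ℂ) ≠ 0 := by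
  exact_mod_cast Fintype.card_ne_zero

lemma Av_of_fixed {v : H} (h : ∀ g, act ρ g v = v) : Av ρ v = v := by
  simp only [Av, h, Finset.sum_const, Finset.card_univ]
  rw [← Nat.cast_smul_eq_nsmul ℂ, smul_smul, inv_mul_cancel₀ (cardG_ne_zero (Γ := Γ)), one_smul]

lemma act_Av (g : Γ) (v : H) : act ρ g (Av ρ v) = Av ρ v := by
  simp only [Av, act_smul, act_sum, ← act_mul]
  congr 1
  exact Fintype.sum_equiv (Equiv.mulLeft g) _ _ (fun x => rfl)

lemma inner_Av {c : H} (hc : ∀ g, act ρ g c = c) (v : H) :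
    inner ℂ c (Av ρ v) = (inner ℂ c v : ℂ) := by
  simp only [Av, inner_smul_right, inner_sum]
  have : ∀ g, (inner ℂ c (act ρ g v) : ℂ) = inner ℂ c v := by
    intro g
    rw [inner_act_right, act_fixed_inv ρ (hc g)]
  simp only [this, Finset.sum_const, Finset.card_univ]
  rw [nsmul_eq_mul, ← mul_assoc, inv_mul_cancel₀ (cardG_ne_zero (Γ := Γ)), one_mul]

end

end Pool.Agent.Helper388_RankOneT
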