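import Mathlib

set_option autoImplicit false

/-!
Groups with a split pair of rank one: the action on the cosets is doubly transitive and the image
in the symmetric group is simple (Iwasawa).
-/

open scoped Pointwise

namespace Pool.Agent.Helper388_RankOneT

variable {E : Type} [Group E]

/-- the group theoretic data -/
structure BN (B U Z : Subgroup E) (n : E) : Prop where
  UB : U ≤ B
  norm : ∀ b ∈ B, ∀ u ∈ U, b * u * b⁻¹ ∈ U
  big : ∀ e, e ∉ B → ∃ u ∈ U, (u * n)⁻¹ * e ∈ B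
  reg : ∀ u ∈ U, n⁻¹ * u * n ∈ B → u = 1
  nB : n ∉ B
  nontriv : ∃ u ∈ U, u ≠ 1
  Zc : ∀ a ∈ Z, ∀ b ∈ Z, a * b = b * a
  Znorm : ∀ b ∈ B, ∀ z ∈ Z, b * z * b⁻¹ ∈ Z
  gen : Subgroup.closure {g | ∃ e : E, ∃ z ∈ Z, g = e * z * e⁻¹} = ⊤
  perf : commutator E = ⊤

namespace BN

variable {B U Z : Subgroup E} {n : E} (h : BN B U Z n)

/-- the base point -/
def x0 (B : Subgroup E) : E ⧸ B := ((1 : E) : E ⧸ B)

lemma smul_x0 (e : E) : e • x0 B = ((e : E) : E ⧸ B) := by
  rw [x0, MulAction.Quotient.smul_coe, smul_eq_mul, mul_one]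

lemma fix_iff (e : E) : e • x0 B = x0 B ↔ e ∈ B := by
  rw [smul_x0, x0, eq_comm, QuotientGroup.eq]
  simp

lemma exists_rep (x : E ⧸ B) : ∃ e : E, x = e • x0 B := by
  obtain ⟨e, rfl⟩ := QuotientGroup.mk_surjective x
  exact ⟨e, (smul_x0 e).symm⟩

include h in
lemma exists_u (x : E ⧸ B) (hx : x ≠ x0 B) : ∃ u ∈ U, x = u • n • x0 B := by
  obtain ⟨e, rfl⟩ := exists_rep x
  have he : e ∉ B := fun h' => hx ((fix_iff e).2 h')
  obtain ⟨u, hu, hb⟩ := h.big e he
  refine ⟨u, hu, ?_⟩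
  rw [← mul_smul]
  have := (fix_iff _).2 hb
  rw [mul_smul, inv_smul_eq_iff] at this
  exact this

include h in
lemma u_unique {u u' : E} (hu : u ∈ U) (hu' : u' ∈ U) (he : u • n • x0 B = u' • n • x0 B) :
    u = u' := by
  have h1 : (n⁻¹ * (u'⁻¹ * u) * n) • x0 B = x0 B := by
    rw [mul_smul, mul_smul, mul_smul, he, inv_smul_smul, inv_smul_smul]
  have h2 := h.reg _ (U.mul_mem (U.inv_mem hu') hu) ((fix_iff _).1 h1)
  rw [inv_mul_eq_one] at h2
  exact h2.symm

include h in
lemma two_trans_aux (a b : E ⧸ B) (hab : a ≠ b) : ∃ e : E, e • x0 B = a ∧ e • n • x0 B = b := by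
  obtain ⟨e, rfl⟩ := exists_rep a
  have h1 : e⁻¹ • b ≠ x0 B := by
    intro h'
    apply hab
    rw [inv_smul_eq_iff] at h'
    exact h'.symm
  obtain ⟨u, hu, hb⟩ := h.exists_u _ h1
  refine ⟨e * u, ?_, ?_⟩
  · rw [mul_smul, (fix_iff u).2 (h.UB hu)]
  · rw [mul_smul, ← hb, smul_inv_smul]

include h in
lemma two_trans (a b c d : E ⧸ B) (hab : a ≠ b) (hcd : c ≠ d) : ∃ e : E, e • a = c ∧ e • b = d := by
  obtain ⟨e, h1, h2⟩ := h.two_trans_aux a b hab
  obtain ⟨e', h3, h4⟩ := h.two_trans_aux c d hcd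
  refine ⟨e' * e⁻¹, ?_, ?_⟩
  · rw [mul_smul, ← h1, inv_smul_smul, h3]
  · rw [mul_smul, ← h2, inv_smul_smul, h4]

include h in
lemma nx0_ne : n • x0 B ≠ x0 B := fun h' => h.nB ((fix_iff n).1 h')

/-- the image in the symmetric group -/
abbrev Q (B : Subgroup E) : Subgroup (Equiv.Perm (E ⧸ B)) := (MulAction.toPermHom E (E ⧸ B)).range

/-- the projection -/
abbrev fQ (B : Subgroup E) : E →* Q B := (MulAction.toPermHom E (E ⧸ B)).rangeRestrict

lemma fQ_surj (B : Subgroup E) : Function.Surjective (fQ B) :=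
  (MulAction.toPermHom E (E ⧸ B)).rangeRestrict_surjective

lemma fQ_smul (e : E) (x : E ⧸ B) : (fQ B e) • x = e • x := rfl

lemma fQ_apply (e : E) (x : E ⧸ B) : (fQ B e).1 x = e • x := rfl

include h in
lemma simple : IsSimpleGroup (Q B) := by
  classical
  -- nontrivial
  have hne := h.nx0_ne
  have hnt : Nontrivial (Q B) := by
    refine ⟨⟨fQ B n, 1, ?_⟩⟩
    intro h'
    apply hne
    rw [← fQ_smul, h', one_smul]
  -- perfect
  have hperf : commutator (Q B) = ⊤ := by
    have h1 : Subgroup.map (fQ B) (commutator E) ≤ commutator (Q B) := by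
      rw [commutator_def, Subgroup.map_commutator, commutator_def]
      exact Subgroup.commutator_mono le_top le_top
    rw [h.perf, Subgroup.map_top_of_surjective _ (fQ_surj B)] at h1
    exact top_le_iff.1 h1
  -- preprimitive
  have h2 : MulAction.IsMultiplyPretransitive (Q B) (E ⧸ B) 2 := by
    rw [MulAction.is_two_pretransitive_iff]
    intro a b c d hab hcd
    obtain ⟨e, h1, h2⟩ := h.two_trans a b c d hab hcd
    exact ⟨fQ B e, h1, h2⟩
  have h3 : MulAction.IsPreprimitive (Q B) (E ⧸ B) :=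
    MulAction.isPreprimitive_of_is_two_pretransitive h2
  have hfaith : FaithfulSMul (Q B) (E ⧸ B) := by
    constructor
    intro a b hab
    apply Subtype.ext
    ext x
    exact hab x
  let Z' : Subgroup (Q B) := Z.map (fQ B)
  have hZB : ∀ b ∈ B, MulAut.conj (fQ B b) • Z' = Z' := by
    have key : ∀ b ∈ B, MulAut.conj (fQ B b) • Z' ≤ Z' := by
      intro b hb
      rintro _ ⟨_, ⟨z, hz, rfl⟩, rfl⟩
      refine ⟨b * z * b⁻¹, h.Znorm b hb z hz, ?_⟩
      simp [MulAut.conj_apply]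
    intro b hb
    apply le_antisymm (key b hb)
    have := key b⁻¹ (B.inv_mem hb)
    rw [map_inv, map_inv] at this
    rwa [Subgroup.pointwise_smul_subset_iff, inv_inv] at this
  let I : MulAction.IwasawaStructure (Q B) (E ⧸ B) :=
    { T := fun x => MulAut.conj (fQ B x.out) • Z'
      is_comm := by
        intro x
        have hZ' : IsMulCommutative Z' := by
          refine ⟨⟨?_⟩⟩
          rintro ⟨_, a, ha, rfl⟩ ⟨_, b, hb, rfl⟩
          apply Subtype.ext
          show fQ B a * fQ B b = fQ B b * fQ B a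
          rw [← map_mul, ← map_mul, h.Zc a ha b hb]
        refine ⟨⟨?_⟩⟩
        rintro ⟨_, a, ha, rfl⟩ ⟨_, b, hb, rfl⟩
        apply Subtype.ext
        have hab : a * b = b * a := by
          have := hZ'.is_comm.comm ⟨a, ha⟩ ⟨b, hb⟩
          exact congrArg Subtype.val this
        show (MulAut.conj (fQ B x.out)) a * (MulAut.conj (fQ B x.out)) b =
          (MulAut.conj (fQ B x.out)) b * (MulAut.conj (fQ B x.out)) a
        rw [← map_mul, ← map_mul, hab]
      is_conj := by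
        intro g x
        obtain ⟨e, rfl⟩ := fQ_surj B g
        have h1 : ∃ b ∈ B, (fQ B e • x).out = e * x.out * b := by
          have h4 : (((e * x.out : E)) : E ⧸ B) = (((fQ B e • x).out : E) : E ⧸ B) := by
            rw [QuotientGroup.out_eq', fQ_smul]
            conv_rhs => rw [← QuotientGroup.out_eq' x]
            rw [MulAction.Quotient.smul_coe, smul_eq_mul]
          rw [QuotientGroup.eq] at h4
          exact ⟨_, h4, by group⟩
        obtain ⟨b, hb, hb2⟩ := h1
        show MulAut.conj (fQ B (fQ B e • x).out) • Z' = _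
        rw [hb2, map_mul, map_mul, map_mul, map_mul, mul_smul, mul_smul, hZB b hb]
      is_generator := by
        rw [eq_top_iff, ← Subgroup.map_top_of_surjective _ (fQ_surj B), ← h.gen, MonoidHom.map_closure,
          Subgroup.closure_le]
        rintro _ ⟨_, ⟨e, z, hz, rfl⟩, rfl⟩
        have hle := le_iSup (fun x : E ⧸ B => MulAut.conj (fQ B x.out) • Z') ((e : E ⧸ B))
        apply hle
        have h1 : ∃ b ∈ B, ((e : E ⧸ B)).out = e * b := by
          have h4 : ((e : E) : E ⧸ B) = ((((e : E ⧸ B)).out : E) : E ⧸ B) := by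
            rw [QuotientGroup.out_eq']
          rw [QuotientGroup.eq] at h4
          exact ⟨_, h4, by group⟩
        obtain ⟨b, hb, hb2⟩ := h1
        show _ ∈ MulAut.conj (fQ B ((e : E ⧸ B)).out) • Z'
        rw [hb2, map_mul, map_mul, mul_smul, hZB b hb]
        refine ⟨fQ B z, ⟨z, hz, rfl⟩, ?_⟩
        simp [MulAut.conj_apply] }
  exact I.isSimpleGroup hperf hfaith

/-- the regular action of the unipotent group -/
lemma regular (h : BN B U Z n) (y z : E ⧸ B) (hy : y ≠ x0 B) (hz : z ≠ x0 B) :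
    ∃! u : Q B, u ∈ U.map (fQ B) ∧ u.1 y = z := by
  obtain ⟨u1, hu1, rfl⟩ := h.exists_u y hy
  obtain ⟨u2, hu2, rfl⟩ := h.exists_u z hz
  refine ⟨fQ B (u2 * u1⁻¹), ⟨⟨_, U.mul_mem hu2 (U.inv_mem hu1), rfl⟩, ?_⟩, ?_⟩
  · rw [fQ_apply, mul_smul, inv_smul_smul]
  · rintro _ ⟨⟨u, hu, rfl⟩, he⟩
    rw [fQ_apply, ← mul_smul] at he
    have := h.u_unique (U.mul_mem hu hu1) hu2 he
    rw [← this, mul_inv_cancel_right]

lemma card_U_le (h : BN B U Z n) [Finite E] : Nat.card U + 1 ≤ Nat.card (E ⧸ B) := by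
  classical
  have hinj : Function.Injective (fun o : Option U => (match o with
    | none => x0 B
    | some u => (u : E) • n • x0 B : E ⧸ B)) := by
    have hne : ∀ u : U, (u : E) • n • x0 B ≠ x0 B := by
      intro u hu
      apply h.nx0_ne
      have h1 : (u : E) • x0 B = x0 B := (fix_iff _).2 (h.UB u.2)
      have h2 : n • x0 B = (u : E)⁻¹ • x0 B := by rw [eq_inv_smul_iff]; exact hu
      rw [h2, inv_smul_eq_iff]; exact h1.symm
    rintro (_ | u) (_ | v) huv
    · rfl
    · exact absurd huv.symm (hne v)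
    · exact absurd huv (hne u)
    · congr 1
      exact Subtype.ext (h.u_unique u.2 v.2 huv)
  have := Nat.card_le_card_of_injective _ hinj
  rwa [Finite.card_option] at this

/-- the quotients -/
theorem exists_quot (h : BN B U Z n) [Finite E] {G : Type} [Group G] (f : G →* E)
    (hf : Function.Surjective f) :
    ∃ N : Subgroup G, (∃ (Q : Type) (_ : Group Q), ∃ f : G →* Q,
          Function.Surjective f ∧ f.ker = N ∧ Finite Q ∧ IsSimpleGroup Q ∧
          ∃ (X : Type) (φ : Q →* Equiv.Perm X), Finite X ∧ 3 ≤ Nat.card X ∧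
            (∀ a b c d : X, a ≠ b → c ≠ d → ∃ g : Q, φ g a = c ∧ φ g b = d) ∧
            ∃ (x : X) (U : Subgroup Q),
              (∀ u ∈ U, φ u x = x) ∧
              (∀ u ∈ U, ∀ h : Q, φ h x = x → h * u * h⁻¹ ∈ U) ∧
              ∀ y z : X, y ≠ x → z ≠ x → ∃! u : Q, u ∈ U ∧ φ u y = z) ∧
      Nat.card U ≤ N.index := by
  have hX := h.card_U_le
  have hfin : Finite (E ⧸ B) := inferInstance
  have hcU : 2 ≤ Nat.card U := by
    obtain ⟨u, hu, hu1⟩ := h.nontriv
    have : Nontrivial U := ⟨⟨⟨u, hu⟩, 1, fun h' => hu1 (congrArg Subtype.val h')⟩⟩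
    exact Finite.one_lt_card
  have hs : Function.Surjective ((fQ B).comp f) := (fQ_surj B).comp hf
  refine ⟨((fQ B).comp f).ker, ⟨Q B, inferInstance, (fQ B).comp f, hs, rfl,
    inferInstance, h.simple, E ⧸ B, (Q B).subtype, hfin, by omega, ?_, x0 B,
    U.map (fQ B), ?_, ?_, ?_⟩, ?_⟩
  · intro a b c d hab hcd
    obtain ⟨e, h1, h2⟩ := h.two_trans a b c d hab hcd
    exact ⟨fQ B e, h1, h2⟩
  · rintro _ ⟨u, hu, rfl⟩
    exact (fix_iff u).2 (h.UB hu)
  · rintro _ ⟨u, hu, rfl⟩ q hq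
    obtain ⟨e, rfl⟩ := fQ_surj B q
    have he : e ∈ B := (fix_iff e).1 hq
    exact ⟨e * u * e⁻¹, h.norm e he u hu, by simp⟩
  · intro y z hy hz
    exact h.regular y z hy hz
  · rw [Subgroup.index_ker]
    have h1 : Nat.card (E ⧸ B) ≤ Nat.card (Q B) := by
      apply Nat.card_le_card_of_surjective (fun q : Q B => q • x0 B)
      intro x
      obtain ⟨e, rfl⟩ := exists_rep x
      exact ⟨fQ B e, rfl⟩
    rw [MonoidHom.range_eq_top.2 hs, Subgroup.card_top]
    omega

end BN

end Pool.Agent.Helper388_RankOneT
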