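import Mathlib

set_option autoImplicit false

open Matrix MatrixGroups

namespace Pool.Agent.Helper388_RankOneT

variable {K : Type*} [Field K]

/-- upper unipotent -/
def up (s : K) : SL(2, K) := ⟨!![1, s; 0, 1], by simp [Matrix.det_fin_two]⟩

/-- lower unipotent -/
def lo (s : K) : SL(2, K) := ⟨!![1, 0; s, 1], by simp [Matrix.det_fin_two]⟩

/-- torus -/
def tor (x : Kˣ) : SL(2, K) := ⟨!![(x : K), 0; 0, ((x⁻¹ : Kˣ) : K)], by simp [Matrix.det_fin_two]⟩

/-- Weyl element -/
def ww : SL(2, K) := ⟨!![0, -1; 1, 0], by simp [Matrix.det_fin_two]⟩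

@[simp] lemma up_val (s : K) : (up s : SL(2, K)).1 = !![1, s; 0, 1] := rfl
@[simp] lemma lo_val (s : K) : (lo s : SL(2, K)).1 = !![1, 0; s, 1] := rfl
@[simp] lemma tor_val (x : Kˣ) : (tor x : SL(2, K)).1 = !![(x : K), 0; 0, ((x⁻¹ : Kˣ) : K)] := rfl
@[simp] lemma ww_val : (ww : SL(2, K)).1 = !![0, -1; 1, 0] := rfl

lemma up_add (a b : K) : up (a + b) = up a * up b := by
  apply Subtype.ext
  simp only [Matrix.SpecialLinearGroup.coe_mul, up_val]
  ext i j; fin_cases i <;> fin_cases j <;> simp; try ring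

lemma lo_add (a b : K) : lo (a + b) = lo a * lo b := by
  apply Subtype.ext
  simp only [Matrix.SpecialLinearGroup.coe_mul, lo_val]
  ext i j; fin_cases i <;> fin_cases j <;> simp; try ring

lemma tor_mul (a b : Kˣ) : tor (a * b) = tor a * tor b := by
  apply Subtype.ext
  simp only [Matrix.SpecialLinearGroup.coe_mul, tor_val]
  ext i j; fin_cases i <;> fin_cases j <;> simp [mul_comm]

/-- the torus as a homomorphism -/
def torHom : Kˣ →* SL(2, K) := MonoidHom.mk' tor tor_mul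

lemma lo_eq (s : Kˣ) : (lo (s : K)) = up ((s⁻¹ : Kˣ) : K) * (tor s⁻¹ * ww) * up ((s⁻¹ : Kˣ) : K) := by
  apply Subtype.ext
  simp only [Matrix.SpecialLinearGroup.coe_mul, lo_val, up_val, tor_val, ww_val]
  ext i j; fin_cases i <;> fin_cases j <;> simp

lemma tor_up (x : Kˣ) (s : K) : tor x * up s = up ((x : K) ^ 2 * s) * tor x := by
  apply Subtype.ext
  simp only [Matrix.SpecialLinearGroup.coe_mul, up_val, tor_val]
  ext i j; fin_cases i <;> fin_cases j <;> simp; field_simp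

lemma ww_tor (x : Kˣ) : ww * tor x = tor x⁻¹ * ww := by
  apply Subtype.ext
  simp only [Matrix.SpecialLinearGroup.coe_mul, ww_val, tor_val]
  ext i j; fin_cases i <;> fin_cases j <;> simp

lemma ww_ww : (ww * ww : SL(2, K)) = tor (-1) := by
  apply Subtype.ext
  simp only [Matrix.SpecialLinearGroup.coe_mul, ww_val, tor_val]
  ext i j; fin_cases i <;> fin_cases j <;> simp

lemma ww_up_ww (x : Kˣ) : ww * up (x : K) * ww = up (-((x⁻¹ : Kˣ) : K)) * ww * (tor x * up (-((x⁻¹ : Kˣ) : K))) := by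
  apply Subtype.ext
  simp only [Matrix.SpecialLinearGroup.coe_mul, ww_val, tor_val, up_val]
  ext i j; fin_cases i <;> fin_cases j <;> simp

lemma decomp_big (g : SL(2, K)) (c : Kˣ) (hc : (c : K) = g.1 1 0) :
    g = up (g.1 0 0 * ((c⁻¹ : Kˣ) : K)) * ww * tor c * up (g.1 1 1 * ((c⁻¹ : Kˣ) : K)) := by
  have hdet : g.1 0 0 * g.1 1 1 - g.1 0 1 * g.1 1 0 = 1 := by
    have := g.2; rwa [Matrix.det_fin_two] at this
  have hc0 : (c : K) ≠ 0 := c.ne_zero
  have h01 : g.1 0 1 = (g.1 0 0 * g.1 1 1 - 1) * (c : K)⁻¹ := by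
    field_simp
    rw [hc]; linear_combination -hdet
  apply Subtype.ext
  simp only [Matrix.SpecialLinearGroup.coe_mul, ww_val, tor_val, up_val]
  ext i j; fin_cases i <;> fin_cases j
  · simp
  · simp [h01]; field_simp; ring
  · simp [hc]
  · simp; field_simp

lemma decomp_small (g : SL(2, K)) (c : Kˣ) (hc : (c : K) = g.1 0 0) (h : g.1 1 0 = 0) :
    g = tor c * up (g.1 0 1 * ((c⁻¹ : Kˣ) : K)) := by
  have hdet : g.1 0 0 * g.1 1 1 - g.1 0 1 * g.1 1 0 = 1 := by
    have := g.2; rwa [Matrix.det_fin_two] at this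
  have hc0 : (c : K) ≠ 0 := c.ne_zero
  have h11 : g.1 1 1 = (c : K)⁻¹ := by
    rw [h, ← hc] at hdet
    field_simp
    linear_combination hdet
  apply Subtype.ext
  simp only [Matrix.SpecialLinearGroup.coe_mul, tor_val, up_val]
  ext i j; fin_cases i <;> fin_cases j
  · simp [hc]
  · simp; field_simp
  · simp [h]
  · simp [h11]

/-- A subgroup containing the upper unipotents and the Weyl element is everything. -/
lemma eq_top_of_up_ww (S : Subgroup SL(2, K)) (hu : ∀ s, up s ∈ S) (hw : ww ∈ S) : S = ⊤ := by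
  have htor : ∀ x : Kˣ, tor x ∈ S := by
    intro x
    have h := ww_up_ww x
    have h2 : tor x = (up (-((x⁻¹ : Kˣ) : K)) * ww)⁻¹ * (ww * up (x : K) * ww) *
        (up (-((x⁻¹ : Kˣ) : K)))⁻¹ := by
      rw [h]; group
    rw [h2]
    exact S.mul_mem (S.mul_mem (S.inv_mem (S.mul_mem (hu _) hw))
      (S.mul_mem (S.mul_mem hw (hu _)) hw)) (S.inv_mem (hu _))
  rw [eq_top_iff]
  intro g _
  by_cases h : g.1 1 0 = 0
  · have hdet : g.1 0 0 * g.1 1 1 - g.1 0 1 * g.1 1 0 = 1 := by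
      have := g.2; rwa [Matrix.det_fin_two] at this
    have h0 : g.1 0 0 ≠ 0 := by
      intro h0
      rw [h0, h] at hdet
      simp at hdet
    rw [decomp_small g (Units.mk0 _ h0) rfl h]
    exact S.mul_mem (htor _) (hu _)
  · rw [decomp_big g (Units.mk0 _ h) rfl]
    exact S.mul_mem (S.mul_mem (S.mul_mem (hu _) hw) (htor _)) (hu _)

lemma ww_eq : (ww : SL(2, K)) = up (-1) * lo 1 * up (-1) := by
  apply Subtype.ext
  simp only [Matrix.SpecialLinearGroup.coe_mul, ww_val, lo_val, up_val]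
  ext i j; fin_cases i <;> fin_cases j <;> simp

/-- A subgroup containing the upper and lower unipotents is everything. -/
lemma eq_top_of_up_lo (S : Subgroup SL(2, K)) (hu : ∀ s, up s ∈ S) (hl : ∀ s, lo s ∈ S) : S = ⊤ := by
  apply eq_top_of_up_ww S hu
  rw [ww_eq]
  exact S.mul_mem (S.mul_mem (hu _) (hl _)) (hu _)

end Pool.Agent.Helper388_RankOneT
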