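import Pool.Agent.Helper388_RankOneT.Avg
import Pool.Agent.Helper388_RankOneT.SL2
import Pool.Agent.Helper455.KZ.Gap

set_option autoImplicit false

open Matrix MatrixGroups
open scoped InnerProductSpace

namespace Pool.Agent.Helper388_RankOneT

open Pool.Agent.Helper455.KZ

variable {H : Type*} [NormedAddCommGroup H] [InnerProductSpace ℂ H] [CompleteSpace H]
variable {K : Type*} [Field K] [Fintype K] [DecidableEq K]

omit [Fintype K] [DecidableEq K] in
/-- the vectors fixed by the upper unipotents and the Weyl element are fixed by the group -/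
lemma fixed_all (σ : SL(2, K) →* unitary (H →L[ℂ] H)) (c : H) (h1 : ∀ s, act σ (up s) c = c)
    (h2 : act σ ww c = c) (g : SL(2, K)) : act σ g c = c := by
  let S : Subgroup SL(2, K) :=
    { carrier := {g | act σ g c = c}
      one_mem' := by simp
      mul_mem' := by
        intro a b ha hb
        show act σ (a * b) c = c
        have ha' : act σ a c = c := ha
        have hb' : act σ b c = c := hb
        rw [act_mul, hb', ha']
      inv_mem' := by
        intro a ha
        exact act_fixed_inv σ ha }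
  have : S = ⊤ := eq_top_of_up_ww S h1 h2
  have hg : g ∈ S := by rw [this]; trivial
  exact hg

/-- the key computation -/
lemma key_sum (σ : SL(2, K) →* unitary (H →L[ℂ] H)) (a : H) (ha : ∀ s, act σ (up s) a = a)
    (horth : ∀ c : H, (∀ g, act σ g c = c) → inner ℂ c a = (0 : ℂ)) :
    ∑ x : Kˣ, (inner ℂ a (act σ (tor x * ww) a) : ℂ) =
      -((Fintype.card Kˣ : ℂ) * (Fintype.card K : ℂ)⁻¹) * ((‖Av (σ.comp torHom) a‖ ^ 2 : ℝ) : ℂ) := by
  set τ := σ.comp (torHom (K := K)) with hτ
  have hact : ∀ (x : Kˣ) (v : H), act τ x v = act σ (tor x) v := fun x v => rfl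
  set b := Av τ a with hb
  have hbt : ∀ x : Kˣ, act σ (tor x) b = b := fun x => by rw [← hact]; exact act_Av τ x a
  have hbu : ∀ s, act σ (up s) b = b := by
    intro s
    have h1 : ∀ x : Kˣ, act σ (up s) (act σ (tor x) a) = act σ (tor x) a := by
      intro x
      have e : up s * tor x = tor x * up (((x⁻¹ : Kˣ) : K) ^ 2 * s) := by
        rw [tor_up]; congr 2; simp
      rw [← act_mul, e, act_mul, ha]
    simp only [hb, Av, act_smul, act_sum, hact, h1]
  set c := b + ∑ s : K, act σ (up s) (act σ ww b) with hc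
  have hcu : ∀ s, act σ (up s) c = c := by
    intro s
    rw [hc, act_add, act_sum, hbu]
    congr 1
    simp only [← act_mul, ← mul_assoc, ← up_add]
    exact Fintype.sum_equiv (Equiv.addLeft s) _ _ (fun x => by simp)
  have hcw : act σ ww c = c := by
    rw [hc, act_add, act_sum]
    have e0 : ∀ s : K, s ≠ 0 → act σ ww (act σ (up s) (act σ ww b)) =
        act σ (up (-s⁻¹)) (act σ ww b) := by
      intro s hs
      have h := ww_up_ww (Units.mk0 s hs)
      simp only [Units.val_mk0, Units.val_inv_eq_inv_val] at h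
      rw [← act_mul, ← act_mul, h, act_mul, act_mul _ (tor _), hbu, hbt, act_mul]
    have e1 : act σ ww (act σ (up (0 : K)) (act σ ww b)) = b := by
      have : (up (0 : K)) = (1 : SL(2, K)) := by
        apply Subtype.ext
        simp only [up_val, Matrix.SpecialLinearGroup.coe_one]
        ext i j; fin_cases i <;> fin_cases j <;> simp
      rw [this, act_one, ← act_mul, ww_ww, hbt]
    have e2 : act σ (up (0 : K)) (act σ ww b) = act σ ww b := by
      have : (up (0 : K)) = (1 : SL(2, K)) := by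
        apply Subtype.ext
        simp only [up_val, Matrix.SpecialLinearGroup.coe_one]
        ext i j; fin_cases i <;> fin_cases j <;> simp
      rw [this, act_one]
    rw [← Finset.add_sum_erase Finset.univ _ (Finset.mem_univ (0 : K)), e1]
    rw [← Finset.add_sum_erase Finset.univ (fun s => act σ (up s) (act σ ww b)) (Finset.mem_univ (0 : K)), e2]
    have e3 : ∑ s ∈ Finset.univ.erase (0 : K), act σ ww (act σ (up s) (act σ ww b)) =
        ∑ s ∈ Finset.univ.erase (0 : K), act σ (up s) (act σ ww b) := by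
      refine Finset.sum_bij' (fun s _ => -s⁻¹) (fun s _ => -s⁻¹) ?_ ?_ ?_ ?_ ?_
      · intro s hs; simp at hs ⊢; exact hs
      · intro s hs; simp at hs ⊢; exact hs
      · intro s hs; simp
      · intro s hs; simp
      · intro s hs
        exact e0 s (by simpa using hs)
    rw [e3]
    abel
  have hfix := fixed_all σ c hcu hcw
  have hca : inner ℂ c a = (0 : ℂ) := horth c hfix
  have hcb : inner ℂ c b = (0 : ℂ) := by
    rw [hb, inner_Av τ (fun x => hfix _), hca]
  -- expand
  have hexp : (inner ℂ c b : ℂ) = ((‖b‖ ^ 2 : ℝ) : ℂ) + (Fintype.card K : ℂ) * inner ℂ (act σ ww b) b := by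
    rw [hc, inner_add_left, sum_inner]
    congr 1
    · rw [inner_self_eq_norm_sq_to_K]; norm_cast
    · have : ∀ s : K, (inner ℂ (act σ (up s) (act σ ww b)) b : ℂ) = inner ℂ (act σ ww b) b := by
        intro s
        calc (inner ℂ (act σ (up s) (act σ ww b)) b : ℂ)
            = inner ℂ (act σ (up s) (act σ ww b)) (act σ (up s) b) := by rw [hbu]
          _ = inner ℂ (act σ ww b) b := inner_act_act _ _ _ _
      simp only [this, Finset.sum_const, Finset.card_univ, nsmul_eq_mul]
  have hq : (Fintype.card K : ℂ) ≠ 0 := by exact_mod_cast Fintype.card_ne_zero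
  have hq' : (Fintype.card Kˣ : ℂ) ≠ 0 := by exact_mod_cast Fintype.card_ne_zero
  have hwb : (inner ℂ b (act σ ww b) : ℂ) = -(Fintype.card K : ℂ)⁻¹ * ((‖b‖ ^ 2 : ℝ) : ℂ) := by
    have h1 : (inner ℂ (act σ ww b) b : ℂ) = -(Fintype.card K : ℂ)⁻¹ * ((‖b‖ ^ 2 : ℝ) : ℂ) := by
      rw [hexp] at hcb
      field_simp
      linear_combination hcb
    rw [← inner_conj_symm, h1]
    simp only [map_mul, map_neg, map_inv₀, Complex.conj_natCast, Complex.conj_ofReal]
  -- the sum
  have hsum : ∑ x : Kˣ, (inner ℂ a (act σ (tor x * ww) a) : ℂ) =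
      (Fintype.card Kˣ : ℂ) * inner ℂ b (act σ ww b) := by
    have h1 : ∑ x : Kˣ, (inner ℂ a (act σ (tor x * ww) a) : ℂ) =
        inner ℂ a ((Fintype.card Kˣ : ℂ) • Av τ (act σ ww a)) := by
      rw [Av, smul_smul, mul_inv_cancel₀ hq', one_smul, inner_sum]
      simp only [hact, ← act_mul]
    have h2 : Av τ (act σ ww a) = act σ ww b := by
      rw [hb, Av, Av, act_smul, act_sum]
      congr 1
      simp only [hact, ← act_mul, ww_tor]
      exact (Fintype.sum_equiv (Equiv.inv Kˣ) _ _ (fun x => by simp)).symm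
    rw [h1, h2, inner_smul_right]
    congr 1
    have h3 : act σ ww b = Av τ (act σ ww b) := by
      rw [Av_of_fixed]
      intro x
      rw [hact, ← act_mul]
      have : tor x * ww = ww * tor x⁻¹ := by rw [ww_tor, inv_inv]
      rw [this, act_mul, hbt]
    have h4 : inner ℂ a (act σ ww b) = (inner ℂ b (act σ ww b) : ℂ) := by
      have h5 : ∀ x, act τ x (act σ ww b) = act σ ww b := by
        intro x; rw [h3, act_Av]
      have h6 := inner_Av τ h5 a
      rw [← hb] at h6
      rw [← inner_conj_symm, ← h6, inner_conj_symm]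
    exact h4
  rw [hsum, hwb]
  ring

lemma sum_field {M : Type*} [AddCommMonoid M] (f : K → M) :
    ∑ s : K, f s = f 0 + ∑ x : Kˣ, f x := by
  rw [← Finset.add_sum_erase Finset.univ _ (Finset.mem_univ (0 : K))]
  congr 1
  refine Finset.sum_bij' (fun s hs => Units.mk0 s (by simpa using hs)) (fun x _ => (x : K))
    ?_ ?_ ?_ ?_ ?_
  · intro s hs; simp
  · intro s hs; simp
  · intro s hs; simp
  · intro s hs; simp
  · intro s hs; simp

/-- the operators of a line -/
noncomputable def uop {Γ : Type*} [Group Γ] (σ : Γ →* unitary (H →L[ℂ] H)) (t : K → Γ) :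
    K → (H →L[ℂ] H) := fun s => (σ (t s) : H →L[ℂ] H)

omit [Fintype K] [DecidableEq K] in
lemma uop_rep {Γ : Type*} [Group Γ] (σ : Γ →* unitary (H →L[ℂ] H)) (t : K → Γ)
    (ht : ∀ a b, t (a + b) = t a * t b) : URep (uop σ t) where
  zero v := by
    have h : t 0 = 1 := by
      have h := ht 0 0
      rw [add_zero] at h
      exact left_eq_mul.mp h
    show act σ (t 0) v = v
    rw [h, act_one]
  add a b v := by
    show act σ (t (a + b)) v = act σ (t a) (act σ (t b) v)
    rw [ht, act_mul]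
  inner a v w := inner_act_act _ _ _ _

/-- the cosine bound -/
lemma cos_bound (σ : SL(2, K) →* unitary (H →L[ℂ] H)) (a : H) (ha : ∀ s, act σ (up s) a = a)
    (horth : ∀ c : H, (∀ g, act σ g c = c) → inner ℂ c a = (0 : ℂ)) :
    ‖avg (uop σ lo) a‖ ^ 2 ≤ (Fintype.card K : ℝ)⁻¹ * ‖a‖ ^ 2 := by
  have hP : Proj (avg (uop σ (lo : K → SL(2, K)))) := (uop_rep σ lo lo_add).avg_proj
  have hq : (Fintype.card K : ℂ) ≠ 0 := by exact_mod_cast Fintype.card_ne_zero
  have h1 : (inner ℂ a (avg (uop σ lo) a) : ℂ) =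
      (Fintype.card K : ℂ)⁻¹ * (((‖a‖ ^ 2 : ℝ) : ℂ) +
      ∑ x : Kˣ, (inner ℂ a (act σ (tor x * ww) a) : ℂ)) := by
    simp only [avg, inner_smul_right, inner_sum]
    congr 1
    rw [sum_field]
    congr 1
    · rw [(uop_rep σ lo lo_add).zero, inner_self_eq_norm_sq_to_K]; norm_cast
    · rw [← Equiv.sum_comp (Equiv.inv Kˣ)]
      refine Finset.sum_congr rfl fun x _ => ?_
      show (inner ℂ a (act σ (lo ((x⁻¹ : Kˣ) : K)) a) : ℂ) = _
      rw [lo_eq, inv_inv, act_mul, act_mul, ha, inner_act_right, act_fixed_inv σ (ha _)]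
  have h2 := hP.re_inner_self' a
  rw [h1, key_sum σ a ha horth] at h2
  rw [← h2]
  have hb : (((Fintype.card K : ℂ)⁻¹ * (((‖a‖ ^ 2 : ℝ) : ℂ) +
      -((Fintype.card Kˣ : ℂ) * (Fintype.card K : ℂ)⁻¹) * ((‖Av (σ.comp torHom) a‖ ^ 2 : ℝ) : ℂ))) : ℂ) =
      (((Fintype.card K : ℝ)⁻¹ * (‖a‖ ^ 2 -
      ((Fintype.card Kˣ : ℝ) * (Fintype.card K : ℝ)⁻¹) * ‖Av (σ.comp torHom) a‖ ^ 2) : ℝ) : ℂ) := by
    push_cast; ring
  rw [hb, Complex.ofReal_re]
  apply mul_le_mul_of_nonneg_left _ (by positivity)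
  have : 0 ≤ ((Fintype.card Kˣ : ℝ) * (Fintype.card K : ℝ)⁻¹) * ‖Av (σ.comp torHom) a‖ ^ 2 := by
    positivity
  linarith

/-- the pair estimate for a pair of lines in `SL₂` -/
theorem sl_pair (σ : SL(2, K) →* unitary (H →L[ℂ] H)) (ε : ℝ) (hε : 0 ≤ ε) (hε1 : ε ≤ 1)
    (hq : (Fintype.card K : ℝ)⁻¹ ≤ ε ^ 2) (v : H) :
    0 ≤ 2 * (inner ℂ (co (avg (uop σ up)) v) (co (avg (uop σ lo)) v) : ℂ).re +
      ε * (‖co (avg (uop σ up)) v‖ ^ 2 + ‖co (avg (uop σ lo)) v‖ ^ 2) := by
  have hU := uop_rep σ (up : K → SL(2, K)) up_add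
  have hL := uop_rep σ (lo : K → SL(2, K)) lo_add
  have pP := hU.avg_proj
  have pL := hL.avg_proj
  set Q := Av σ v with hQ
  set v' := v - Q with hv'
  have hfQ : ∀ g, act σ g Q = Q := fun g => act_Av σ g v
  have e1 : avg (uop σ up) Q = Q := avg_of_fix Q (fun s => hfQ (up s))
  have e2 : avg (uop σ lo) Q = Q := avg_of_fix Q (fun s => hfQ (lo s))
  have c1 : co (avg (uop σ up)) v = co (avg (uop σ up)) v' := by
    simp only [co, hv', pP.sub, e1]; abel
  have c2 : co (avg (uop σ lo)) v = co (avg (uop σ lo)) v' := by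
    simp only [co, hv', pL.sub, e2]; abel
  rw [c1, c2]
  apply pair_small pP pL ε hε hε1
  have horth : ∀ c : H, (∀ g, act σ g c = c) → inner ℂ c (avg (uop σ up) v') = (0 : ℂ) := by
    intro c hc
    have e3 : avg (uop σ up) c = c := avg_of_fix c (fun s => hc (up s))
    rw [← pP.sym, e3, hv', inner_sub_right, hQ, inner_Av σ hc, sub_self]
  have hcos := cos_bound σ (avg (uop σ up) v') (fun s => hU.fix_avg s v') horth
  have e : ⟪avg (uop σ up) v', avg (uop σ lo) v'⟫_ℂ =
      ⟪avg (uop σ lo) (avg (uop σ up) v'), avg (uop σ lo) v'⟫_ℂ := by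
    rw [pL.sym, pL.idem]
  rw [e]
  refine (norm_inner_le_norm _ _).trans ?_
  rw [← mul_assoc]
  apply mul_le_mul_of_nonneg_right _ (norm_nonneg _)
  apply le_of_sq_le_sq _ (by positivity)
  rw [mul_pow]
  exact hcos.trans (mul_le_mul_of_nonneg_right hq (by positivity))

end Pool.Agent.Helper388_RankOneT
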