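import Pool.Agent.Helper388_RankOneT.Cos

set_option autoImplicit false

/-!
Kazhdan's property (T) for groups generated by few lines over a finite field any two of which
come from a homomorphic image of `SL₂`.
-/

open Matrix MatrixGroups
open scoped InnerProductSpace

namespace Pool.Agent.Helper388_RankOneT

open Pool.Agent.Helper455.KZ

/-- Property (T) for groups generated by three lines over the field with seven elements, any two
of which generate an image of `SL₂`. -/
theorem propT_three {Γ : Type*} [Group Γ] {K : Type*} [Field K] [Fintype K] [DecidableEq K]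
    (hK : Fintype.card K = 7) (t : Fin 3 → K → Γ)
    (pair : ∀ i j : Fin 3, i ≠ j → ∃ φ : SL(2, K) →* Γ, (∀ s, φ (up s) = t i s) ∧
      ∀ s, φ (lo s) = t j (-s))
    (gen : Subgroup.closure {g | ∃ i s, g = t i s} = ⊤)
    {H : Type*} [NormedAddCommGroup H] [InnerProductSpace ℂ H] [CompleteSpace H]
    (π : Γ →* unitary (H →L[ℂ] H))
    (hai : ∀ (S : Finset Γ) (ε : ℝ), 0 < ε →
      ∃ v : H, ‖v‖ = 1 ∧ ∀ s ∈ S, ‖(π s : H →L[ℂ] H) v - v‖ < ε) :
    ∃ v : H, v ≠ 0 ∧ ∀ g : Γ, (π g : H →L[ℂ] H) v = v := by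
  classical
  have hadd : ∀ i a b, t i (a + b) = t i a * t i b := by
    intro i a b
    obtain ⟨j, hj⟩ : ∃ j : Fin 3, i ≠ j := by
      fin_cases i
      · exact ⟨1, by decide⟩
      · exact ⟨0, by decide⟩
      · exact ⟨0, by decide⟩
    obtain ⟨φ, h1, _⟩ := pair i j hj
    rw [← h1, ← h1, ← h1, up_add, map_mul]
  have hrep : ∀ i, URep (uop π (t i)) := fun i => uop_rep π _ (hadd i)
  let Q : Fin 3 → H → H := fun i => co (avg (uop π (t i)))
  have hQ : ∀ i, Proj (Q i) := fun i => (hrep i).avg_proj.co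
  have hpair : ∀ i j, i ≠ j → ∀ v, 0 ≤ 2 * (⟪Q i v, Q j v⟫_ℂ).re +
      (2 / 5) * (‖Q i v‖ ^ 2 + ‖Q j v‖ ^ 2) := by
    intro i j hij v
    obtain ⟨φ, h1, h2⟩ := pair i j hij
    have h := sl_pair (π.comp φ) (2 / 5) (by norm_num) (by norm_num)
      (by rw [hK]; norm_num) v
    have e1 : avg (uop (π.comp φ) up) = avg (uop π (t i)) := by
      have : uop (π.comp φ) up = uop π (t i) := by
        funext s
        simp only [uop, MonoidHom.comp_apply, h1]
      rw [this]
    have e2 : avg (uop (π.comp φ) lo) = avg (uop π (t j)) := by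
      funext x
      simp only [avg]
      congr 1
      rw [← Equiv.sum_comp (Equiv.neg K)]
      refine Finset.sum_congr rfl fun s _ => ?_
      simp only [uop, MonoidHom.comp_apply, h2, Equiv.neg_apply, neg_neg]
    rw [e1, e2] at h
    exact h
  have hc : (0 : ℝ) < 1 - ((Fintype.card (Fin 3) : ℝ) - 1) * (2 / 5) := by
    rw [Fintype.card_fin]; norm_num
  have hc1 : 1 - ((Fintype.card (Fin 3) : ℝ) - 1) * (2 / 5) ≤ 1 := by
    rw [Fintype.card_fin]; norm_num
  have hDE : ∀ v, (1 - ((Fintype.card (Fin 3) : ℝ) - 1) * (2 / 5)) * EE Q v ≤ ‖DD Q v‖ ^ 2 :=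
    fun v => DD_lower Q (2 / 5) hpair v
  have hthr := thr_pos (Fintype.card (Fin 3) : ℝ)
    (1 - ((Fintype.card (Fin 3) : ℝ) - 1) * (2 / 5)) (by rw [Fintype.card_fin]; norm_num) hc
  obtain ⟨v, hv, hsm⟩ := hai ((Finset.univ : Finset (Fin 3 × K)).image (fun q => t q.1 q.2)) _ hthr
  have hv' : ∀ i, ‖Q i v‖ ≤ thr (Fintype.card (Fin 3) : ℝ)
      (1 - ((Fintype.card (Fin 3) : ℝ) - 1) * (2 / 5)) := by
    intro i
    refine co_avg_small v _ fun a => ?_
    exact (hsm (t i a) (Finset.mem_image.mpr ⟨(i, a), Finset.mem_univ _, rfl⟩)).le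
  obtain ⟨w, hw, hwi⟩ := exists_invariant (by rw [Fintype.card_fin]; norm_num) Q hQ _ hc hc1 hDE
    v hv hv'
  refine ⟨w, hw, ?_⟩
  let St : Subgroup Γ :=
    { carrier := {g | act π g w = w}
      one_mem' := by simp
      mul_mem' := by
        intro a b ha hb
        show act π (a * b) w = w
        have ha' : act π a w = w := ha
        have hb' : act π b w = w := hb
        rw [act_mul, hb', ha']
      inv_mem' := by
        intro a ha
        exact act_fixed_inv π ha }
  have hle : Subgroup.closure {g | ∃ i s, g = t i s} ≤ St := by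
    rw [Subgroup.closure_le]
    rintro _ ⟨i, s, rfl⟩
    show (π (t i s) : H →L[ℂ] H) w = w
    have h1 : avg (uop π (t i)) w = w := by
      have : w - avg (uop π (t i)) w = 0 := hwi i
      rw [sub_eq_zero] at this
      exact this.symm
    have h3 := (hrep i).fix_avg s w
    rw [h1] at h3
    exact h3
  intro g
  rw [gen] at hle
  exact hle (Subgroup.mem_top g)

end Pool.Agent.Helper388_RankOneT
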