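import Pool.Agent.Helper388_RankOneT.Fld
import Pool.Agent.Helper388_RankOneT.PropT

set_option autoImplicit false

open Matrix MatrixGroups

namespace Pool.Agent.Helper388_RankOneT

/-- the fields -/
abbrev KK (k : ℕ) : Type := GaloisField 7 (2 * (k + 1))

/-- the data over the fields -/
noncomputable def DK (k : ℕ) : Dat (KK k) := (exists_dat (k + 1) (Nat.succ_pos k)).some

/-- the big product -/
abbrev PP : Type := ∀ k : ℕ, (Matrix (Fin 3) (Fin 3) (KK k))ˣ

/-- the generators in the product -/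
noncomputable def tP (i : Fin 3) (s : ZMod 7) : PP := fun k => (DK k).t i s

/-- the group with property (T) -/
noncomputable abbrev GG : Subgroup PP := Subgroup.closure {g | ∃ i s, g = tP i s}

/-- the generators of the group -/
noncomputable def tG (i : Fin 3) (s : ZMod 7) : GG := ⟨tP i s, Subgroup.subset_closure ⟨i, s, rfl⟩⟩

lemma closure_tG : Subgroup.closure {g | ∃ i s, g = tG i s} = ⊤ := by
  have h := Subgroup.closure_closure_coe_preimage (k := {g | ∃ i s, g = tP i s})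
  rw [eq_top_iff]
  change (⊤ : Subgroup (Subgroup.closure {g | ∃ i s, g = tP i s})) ≤ _
  rw [← h]
  apply Subgroup.closure_mono
  rintro ⟨g, hg⟩ ⟨i, s, hi⟩
  exact ⟨i, s, Subtype.ext hi⟩

lemma pairG (i j : Fin 3) (h : i ≠ j) : ∃ φ : SL(2, ZMod 7) →* GG, (∀ s, φ (up s) = tG i s) ∧
    ∀ s, φ (lo s) = tG j (-s) := by
  let φ₀ : SL(2, ZMod 7) →* PP := MonoidHom.pi (fun k => (DK k).phi i j h)
  have h1 : ∀ s, φ₀ (up s) = tP i s := by
    intro s; funext k; exact (DK k).phi_up i j h s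
  have h2 : ∀ s, φ₀ (lo s) = tP j (-s) := by
    intro s; funext k; exact (DK k).phi_lo i j h s
  have hmem : ∀ g, φ₀ g ∈ GG := by
    have : GG.comap φ₀ = ⊤ := by
      apply eq_top_of_up_lo
      · intro s
        rw [Subgroup.mem_comap, h1]; exact (tG _ _).2
      · intro s
        rw [Subgroup.mem_comap, h2]; exact (tG _ _).2
    intro g
    have h3 : g ∈ GG.comap φ₀ := by rw [this]; trivial
    exact h3
  exact ⟨φ₀.codRestrict GG hmem, fun s => Subtype.ext (h1 s), fun s => Subtype.ext (h2 s)⟩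

/-- the projections -/
noncomputable def fE (k : ℕ) : GG →* (DK k).E :=
  ((Pi.evalMonoidHom _ k).comp GG.subtype).codRestrict (DK k).E (by
    intro g
    have : GG ≤ ((DK k).E).comap (Pi.evalMonoidHom _ k) := by
      rw [Subgroup.closure_le]
      rintro _ ⟨i, s, rfl⟩
      exact (DK k).t_mem i s
    exact this g.2)

lemma fE_surj (k : ℕ) : Function.Surjective (fE k) := by
  rw [← MonoidHom.range_eq_top, eq_top_iff, ← (DK k).closure_tE, Subgroup.closure_le]
  rintro _ ⟨i, s, rfl⟩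
  exact ⟨tG i s, rfl⟩

lemma card_U (k : ℕ) : k < Nat.card (((UT (KK k)).subgroupOf (DK k).E)) := by
  classical
  have hfin : Finite (KK k) := inferInstance
  have h1 : Nat.card (KK k) ≤ Nat.card (((UT (KK k)).subgroupOf (DK k).E)) := by
    apply Nat.card_le_card_of_surjective
      (fun u : ((UT (KK k)).subgroupOf (DK k).E) => (u.1.1).1 1 2)
    intro x
    obtain ⟨u, hu, hx⟩ := (DK k).XX_top x
    exact ⟨⟨⟨u, hu.2⟩, hu.1⟩, hx⟩
  have h2 : Nat.card (KK k) = 7 ^ (2 * (k + 1)) := GaloisField.card 7 _ (by omega)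
  have h3 : 2 * (k + 1) < 7 ^ (2 * (k + 1)) := Nat.lt_pow_self (by norm_num)
  omega

theorem main :
    ¬ (∀ (G : Type) [Group G],
      (∀ (H : Type) [NormedAddCommGroup H] [InnerProductSpace ℂ H] [CompleteSpace H]
          (ρ : G →* unitary (H →L[ℂ] H)),
          (∀ (S : Finset G) (ε : ℝ), 0 < ε →
              ∃ v : H, ‖v‖ = 1 ∧ ∀ s ∈ S, ‖(ρ s : H →L[ℂ] H) v - v‖ < ε) →
          ∃ v : H, v ≠ 0 ∧ ∀ g : G, (ρ g : H →L[ℂ] H) v = v) →
      Set.Finite {N : Subgroup G | ∃ (Q : Type) (_ : Group Q), ∃ f : G →* Q,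
          Function.Surjective f ∧ f.ker = N ∧ Finite Q ∧ IsSimpleGroup Q ∧
          ∃ (X : Type) (φ : Q →* Equiv.Perm X), Finite X ∧ 3 ≤ Nat.card X ∧
            (∀ a b c d : X, a ≠ b → c ≠ d → ∃ g : Q, φ g a = c ∧ φ g b = d) ∧
            ∃ (x : X) (U : Subgroup Q),
              (∀ u ∈ U, φ u x = x) ∧
              (∀ u ∈ U, ∀ h : Q, φ h x = x → h * u * h⁻¹ ∈ U) ∧
              ∀ y z : X, y ≠ x → z ≠ x → ∃! u : Q, u ∈ U ∧ φ u y = z}) := by
  intro hall
  have hfin := hall GG (fun H _ _ _ ρ hai =>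
    propT_three (ZMod.card 7) tG pairG closure_tG ρ hai)
  obtain ⟨M, hM⟩ := (hfin.image (fun N => N.index)).bddAbove
  obtain ⟨N, hN, hNi⟩ := BN.exists_quot (DK M).bn (fE M) (fE_surj M)
  have h1 : N.index ≤ M := hM ⟨N, hN, rfl⟩
  have h2 := card_U M
  omega

end Pool.Agent.Helper388_RankOneT
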