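import Pool.Agent.Helper388_RankOneT.Inst

set_option autoImplicit false

namespace Pool.Agent.Helper388_RankOneT

lemma seven_pow_mod (k : ℕ) : 7 ^ k % 3 = 1 := by
  induction k with
  | zero => rfl
  | succ k ih => rw [pow_succ, Nat.mul_mod, ih]

theorem exists_dat (k : ℕ) (hk : 0 < k) : Nonempty (Dat (GaloisField 7 (2 * k))) := by
  classical
  set K := GaloisField 7 (2 * k) with hK
  set q := 7 ^ k with hq
  have hq7 : 7 ≤ q := by
    rw [hq]
    calc 7 = 7 ^ 1 := by norm_num
      _ ≤ 7 ^ k := Nat.pow_le_pow_right (by norm_num) hk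
  have hcard : Nat.card K = q * q := by
    rw [hK, GaloisField.card 7 (2 * k) (by omega), hq, ← pow_add, two_mul]
  have hfin : Finite K := Nat.finite_of_card_ne_zero (by rw [hcard]; positivity)
  have : Fintype K := Fintype.ofFinite K
  have hcardF : Fintype.card K = q * q := by rw [← Nat.card_eq_fintype_card, hcard]
  have hcu : Nat.card Kˣ = (q - 1) * (q + 1) := by
    rw [Nat.card_units, hcard]
    obtain ⟨r, hr⟩ : ∃ r, q = r + 1 := ⟨q - 1, by omega⟩
    rw [hr]
    simp only [Nat.add_sub_cancel]
    have : (r + 1) * (r + 1) = r * (r + 1 + 1) + 1 := by ring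
    omega
  obtain ⟨g, hg⟩ := IsCyclic.exists_ofOrder_eq_natCard (α := Kˣ)
  set u : Kˣ := g ^ (q - 1) with hu
  have hou : orderOf u = q + 1 := by
    rw [hu, orderOf_pow_of_dvd (by omega) (by rw [hg, hcu]; exact dvd_mul_right _ _), hg, hcu]
    exact Nat.mul_div_cancel_left _ (by omega)
  have hu1 : u ^ (q + 1) = 1 := by rw [← hou]; exact pow_orderOf_eq_one u
  have hou3 : orderOf (u ^ 3) = q + 1 := by
    rw [Nat.Coprime.orderOf_pow, hou]
    rw [hou]
    have h3 : q % 3 = 1 := seven_pow_mod k
    rw [Nat.coprime_comm, Nat.Prime.coprime_iff_not_dvd (by norm_num)]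
    omega
  have hσ : ∀ a : K, iterateFrobenius K 7 k a = a ^ q := fun a => iterateFrobenius_def 7 k a
  have hpow : ∀ a : K, a ^ (q * q) = a := by
    intro a
    rw [← hcardF]; exact FiniteField.pow_card a
  refine ⟨{ σ := iterateFrobenius K 7 k
            ξ := (u : K)
            hξ := u.ne_zero
            hσσ := ?_
            hσξ := ?_
            hδ := ?_
            hgen := ?_ }⟩
  · intro a
    rw [hσ, hσ, ← pow_mul, hpow]
  · rw [hσ]
    apply eq_inv_of_mul_eq_one_left
    rw [← pow_succ]
    have := congrArg Units.val hu1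
    simpa using this
  · intro h
    have h1 : (u : K) * u = 1 := by
      have h2 : (u : K) = (u : K)⁻¹ := sub_eq_zero.1 h
      nth_rewrite 2 [h2]
      exact mul_inv_cancel₀ u.ne_zero
    have h2 : u ^ 2 = 1 := by
      apply Units.ext
      rw [Units.val_pow_eq_pow_val, sq, h1, Units.val_one]
    have h3 := orderOf_dvd_of_pow_eq_one h2
    rw [hou] at h3
    have := Nat.le_of_dvd (by norm_num) h3
    omega
  · intro A hA
    by_contra hne
    obtain ⟨x, hx⟩ : ∃ x : K, x ∉ A := by
      by_contra hall
      push Not at hall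
      apply hne
      rw [eq_top_iff]
      intro y _
      exact hall y
    -- inverses
    have hinv : ∀ a ∈ A, a⁻¹ ∈ A := by
      intro a ha
      by_cases h0 : a = 0
      · rw [h0, inv_zero]; exact A.zero_mem
      · have h1 : a⁻¹ = a ^ (q * q - 2) := by
          symm
          apply eq_inv_of_mul_eq_one_left
          have h2 := hpow a
          have h3 : q * q = (q * q - 2) + 1 + 1 := by
            have : 49 ≤ q * q := Nat.mul_le_mul hq7 hq7
            omega
          rw [h3, pow_succ] at h2
          have h4 : a ^ (q * q - 2 + 1) = 1 := by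
            apply mul_right_cancel₀ h0
            rw [h2, one_mul]
          rw [pow_succ] at h4
          exact h4
        rw [h1]
        exact A.pow_mem ha _
    -- lower bound
    have hlow : q + 1 ≤ Nat.card A := by
      have hinj : Function.Injective (fun i : Fin (q + 1) => (⟨((u : K) ^ 3) ^ (i : ℕ), A.pow_mem hA _⟩ : A)) := by
        intro i j hij
        have h1 : ((u : K) ^ 3) ^ (i : ℕ) = ((u : K) ^ 3) ^ (j : ℕ) := congrArg Subtype.val hij
        have h2 : (u ^ 3) ^ (i : ℕ) = (u ^ 3) ^ (j : ℕ) := by
          apply Units.ext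
          push_cast
          exact h1
        have h3 := pow_injOn_Iio_orderOf (x := u ^ 3) (by rw [hou3]; exact i.2)
          (by rw [hou3]; exact j.2) h2
        exact Fin.ext h3
      have := Nat.card_le_card_of_injective _ hinj
      rwa [Nat.card_fin] at this
    have hup : Nat.card A * Nat.card A ≤ q * q := by
      have hinj : Function.Injective (fun p : A × A => (p.1 : K) + p.2 * x) := by
        rintro ⟨a, b⟩ ⟨a', b'⟩ h
        simp only at h
        have h1 : ((b : K) - b') * x = a' - a := by linear_combination h
        by_cases hb : (b : K) - b' = 0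
        · rw [hb, zero_mul] at h1
          have h2 : b = b' := Subtype.ext (sub_eq_zero.1 hb)
          have h3 : a = a' := Subtype.ext (sub_eq_zero.1 h1.symm).symm
          rw [h2, h3]
        · exfalso
          apply hx
          have h2 : x = ((b : K) - b')⁻¹ * (a' - a) := by
            rw [← h1, ← mul_assoc, inv_mul_cancel₀ hb, one_mul]
          rw [h2]
          exact A.mul_mem (hinv _ (A.sub_mem b.2 b'.2)) (A.sub_mem a'.2 a.2)
      have := Nat.card_le_card_of_injective _ hinj
      rwa [Nat.card_prod, hcard] at this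
    have : (q + 1) * (q + 1) ≤ q * q := (Nat.mul_le_mul hlow hlow).trans hup
    nlinarith

end Pool.Agent.Helper388_RankOneT
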