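import Pool.Agent.Helper388_RankOneT.Nmat

set_option autoImplicit false

open Matrix MatrixGroups

namespace Pool.Agent.Helper388_RankOneT

namespace Dat

variable {K : Type} [Field K] [Algebra (ZMod 7) K] (D : Dat K)

lemma two_ne : (2 : K) ≠ 0 := by
  intro h
  have : algebraMap (ZMod 7) K 2 = 0 := (map_ofNat (algebraMap (ZMod 7) K) 2).trans h
  rw [map_eq_zero] at this
  exact absurd this (by decide)

lemma three_ne : (3 : K) ≠ 0 := by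
  intro h
  have : algebraMap (ZMod 7) K 3 = 0 := (map_ofNat (algebraMap (ZMod 7) K) 3).trans h
  rw [map_eq_zero] at this
  exact absurd this (by decide)

/-- the element `ξ` does not lie in the prime field in a strong sense -/
lemma top_of_ξ {a : ZMod 7} (h : D.ξ ^ 3 = algebraMap (ZMod 7) K a) (x : K) :
    ∃ b : ZMod 7, algebraMap (ZMod 7) K b = x := by
  have h1 : (algebraMap (ZMod 7) K).range = ⊤ := D.hgen _ ⟨a, h.symm⟩
  have h2 : x ∈ (algebraMap (ZMod 7) K).range := by rw [h1]; trivial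
  exact h2

lemma ξ_not_prime (a : ZMod 7) : D.ξ ^ 3 ≠ algebraMap (ZMod 7) K a := by
  intro h
  obtain ⟨b, hb⟩ := D.top_of_ξ h D.ξ
  have h1 : D.σ D.ξ = D.ξ := by rw [← hb, D.σ_alg]
  rw [D.hσξ] at h1
  apply D.hδ
  rw [h1, sub_self]

lemma quad_ne : 1 - D.ξ⁻¹ + D.ξ⁻¹ ^ 2 ≠ 0 := by
  intro h
  have h1 := D.hξ
  apply D.ξ_not_prime (-1)
  field_simp at h
  simp only [map_neg, map_one]
  linear_combination (D.ξ + 1) * h

/-- the starting element of the unipotent group -/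
lemma exists_start : ∃ u ∈ UT K ⊓ D.E, u.1 1 2 ≠ 0 := by
  obtain ⟨-, -, -, g11, g22, g12⟩ := D.gg_entries
  have hgB := D.gg_BT
  have hhB := D.hh_BT
  set c := D.hh * D.gg * D.hh⁻¹ * D.gg⁻¹ with hc
  have hcE : c ∈ D.E := by
    rw [hc]
    exact D.E.mul_mem (D.E.mul_mem (D.E.mul_mem D.hh_mem D.gg_mem) (D.E.inv_mem D.hh_mem))
      (D.E.inv_mem D.gg_mem)
  have hcB : c ∈ BT K := by
    rw [hc]
    exact (BT K).mul_mem ((BT K).mul_mem ((BT K).mul_mem hhB hgB) ((BT K).inv_mem hhB))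
      ((BT K).inv_mem hgB)
  have hrel : c * (D.gg * D.hh) = D.hh * D.gg := by rw [hc]; group
  have hrel' : c.1 * ((D.gg).1 * (D.hh).1) = (D.hh).1 * (D.gg).1 := by
    rw [← Units.val_mul, ← Units.val_mul, hrel, Units.val_mul]
  obtain ⟨a1, a2, a3⟩ := hcB
  obtain ⟨n0, n1, n2⟩ := BT_ne hgB
  obtain ⟨b1, b2, b3⟩ := hgB
  have e00 := congrFun (congrFun hrel' 0) 0
  have e11 := congrFun (congrFun hrel' 1) 1
  have e22 := congrFun (congrFun hrel' 2) 2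
  have e12 := congrFun (congrFun hrel' 1) 2
  simp only [mul3, D.hh_val] at e00 e11 e22 e12
  simp [a1, a2, a3, b1, b2, b3] at e00 e11 e22 e12
  have h2 := two_ne (K := K)
  have h3 := three_ne (K := K)
  have f00 : c.1 0 0 = 1 := by
    apply mul_right_cancel₀ (mul_ne_zero n0 h2)
    rw [e00]; ring
  have f11 : c.1 1 1 = 1 := mul_right_cancel₀ n1 (by rw [e11, one_mul])
  have h4 : (4 : K) ≠ 0 := by
    have : (4 : K) = 2 * 2 := by norm_num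
    rw [this]; exact mul_ne_zero h2 h2
  have f22 : c.1 2 2 = 1 := by
    apply mul_right_cancel₀ (mul_ne_zero n2 h4)
    rw [e22]; ring
  refine ⟨c, ⟨⟨⟨a1, a2, a3⟩, f00, f11, f22⟩, hcE⟩, ?_⟩
  intro h0
  rw [h0, f11, g12] at e12
  have h5 : (3 : K) * (D.δ * (1 - D.ξ⁻¹ + D.ξ⁻¹ ^ 2)) = 0 := by linear_combination -e12
  exact mul_ne_zero h3 (mul_ne_zero D.δ_ne D.quad_ne) h5

/-- the set of second coordinates of the unipotent group -/
def XX : Set K := {x | ∃ u ∈ UT K ⊓ D.E, u.1 1 2 = x}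

lemma XX_add {x y : K} (hx : x ∈ D.XX) (hy : y ∈ D.XX) : x + y ∈ D.XX := by
  obtain ⟨u, hu, rfl⟩ := hx
  obtain ⟨v, hv, rfl⟩ := hy
  refine ⟨u * v, (UT K ⊓ D.E).mul_mem hu hv, ?_⟩
  obtain ⟨⟨⟨a1, a2, a3⟩, a4, a5, a6⟩, -⟩ := hu
  obtain ⟨⟨⟨b1, b2, b3⟩, b4, b5, b6⟩, -⟩ := hv
  rw [Units.val_mul, mul3, a1, a5, b6]; ring

lemma XX_zero : (0 : K) ∈ D.XX := ⟨1, (UT K ⊓ D.E).one_mem, by simp⟩

lemma XX_neg {x : K} (hx : x ∈ D.XX) : -x ∈ D.XX := by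
  obtain ⟨u, hu, rfl⟩ := hx
  have hu' := (UT K ⊓ D.E).inv_mem hu
  refine ⟨u⁻¹, hu', ?_⟩
  have h1 : u.1 * (u⁻¹).1 = 1 := u.mul_inv
  have e := congrFun (congrFun h1 1) 2
  obtain ⟨⟨⟨a1, a2, a3⟩, a4, a5, a6⟩, -⟩ := hu
  obtain ⟨⟨⟨b1, b2, b3⟩, b4, b5, b6⟩, -⟩ := hu'
  rw [mul3, a1, a5, b6] at e
  have e' : (1 : Matrix (Fin 3) (Fin 3) K) 1 2 = 0 := by simp
  rw [e'] at e
  linear_combination e

/-- multiplication by `-ξ ^ 3` -/
lemma XX_mul_ξ {x : K} (hx : x ∈ D.XX) : -(D.ξ ^ 3) * x ∈ D.XX := by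
  obtain ⟨u, hu, rfl⟩ := hx
  have hgB := (BT K).inv_mem D.gg_BT
  have hgE := D.E.inv_mem D.gg_mem
  obtain ⟨-, -, -, g11, g22, -⟩ := D.gg_entries
  set v := (D.gg)⁻¹ * u * ((D.gg)⁻¹)⁻¹ with hv
  obtain ⟨hvU, hv2⟩ := conj_UT hgB hu.1
  have hvE : v ∈ D.E := D.E.mul_mem (D.E.mul_mem hgE hu.2) (D.E.inv_mem hgE)
  -- go back
  have hback := conj_UT D.gg_BT hvU
  have hu3 : D.gg * v * (D.gg)⁻¹ = u := by rw [hv]; group
  rw [hu3] at hback
  refine ⟨v, ⟨hvU, hvE⟩, ?_⟩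
  have h1 := hback.2
  rw [g22, g11] at h1
  have h2 := D.hξ
  have h3 : D.ξ⁻¹ ^ 2 * v.1 1 2 = -(u.1 1 2 * D.ξ) := by rw [← h1]; ring
  field_simp at h3
  rw [h3]; ring

lemma XX_top (x : K) : x ∈ D.XX := by
  let A : Subring K :=
    { carrier := {a | ∀ x ∈ D.XX, a * x ∈ D.XX}
      mul_mem' := by
        intro a b ha hb x hx
        rw [mul_assoc]; exact ha _ (hb x hx)
      one_mem' := by
        intro x hx; rwa [one_mul]
      add_mem' := by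
        intro a b ha hb x hx
        rw [add_mul]; exact D.XX_add (ha x hx) (hb x hx)
      zero_mem' := by
        intro x hx; rw [zero_mul]; exact D.XX_zero
      neg_mem' := by
        intro a ha x hx
        rw [neg_mul]; exact D.XX_neg (ha x hx) }
  have hA : A = ⊤ := by
    apply D.hgen
    have h1 : -(D.ξ ^ 3) ∈ A := fun x hx => D.XX_mul_ξ hx
    have := A.neg_mem h1
    rwa [neg_neg] at this
  obtain ⟨u, hu, hu0⟩ := D.exists_start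
  have h1 : x * (u.1 1 2)⁻¹ ∈ A := by rw [hA]; trivial
  have h2 := h1 _ ⟨u, hu, rfl⟩
  rwa [mul_assoc, inv_mul_cancel₀ hu0, mul_one] at h2

/-- the entries of a unitary unitriangular matrix -/
lemma UT_entries {u : (Matrix (Fin 3) (Fin 3) K)ˣ} (hu : u ∈ UT K) (hE : u ∈ D.E) :
    u.1 0 1 = D.σ (u.1 1 2) ∧ u.1 0 2 + D.σ (u.1 0 2) = u.1 1 2 * D.σ (u.1 1 2) := by
  have hU := D.isU_of_mem hE
  have e1 := D.isU_entry hU 1 2
  have e2 := D.isU_entry hU 2 2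
  obtain ⟨⟨a1, a2, a3⟩, a4, a5, a6⟩ := hu
  rw [a3, a5, a6] at e1
  rw [a6] at e2
  simp [J] at e1 e2
  constructor
  · linear_combination e1
  · linear_combination e2

/-- every element with trivial second coordinate -/
lemma exists_Z (l : K) (hl : D.σ l = -l) : ∃ u ∈ UT K ⊓ D.E, u.1 0 1 = 0 ∧ u.1 1 2 = 0 ∧
    u.1 0 2 = l := by
  obtain ⟨u, hu, hu1⟩ := D.XX_top 1
  obtain ⟨v, hv, hv1⟩ := D.XX_top (l / 2)
  have hσ2 : D.σ (l / 2) = -(l / 2) := by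
    rw [map_div₀, hl, map_ofNat]; ring
  set c := u * v * u⁻¹ * v⁻¹ with hc
  have hcm : c ∈ UT K ⊓ D.E := by
    rw [hc]
    exact (UT K ⊓ D.E).mul_mem ((UT K ⊓ D.E).mul_mem ((UT K ⊓ D.E).mul_mem hu hv)
      ((UT K ⊓ D.E).inv_mem hu)) ((UT K ⊓ D.E).inv_mem hv)
  have hrel : c * (v * u) = u * v := by rw [hc]; group
  have hrel' : c.1 * (v.1 * u.1) = u.1 * v.1 := by
    rw [← Units.val_mul, ← Units.val_mul, hrel, Units.val_mul]
  obtain ⟨hu2, -⟩ := D.UT_entries hu.1 hu.2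
  obtain ⟨hv2, -⟩ := D.UT_entries hv.1 hv.2
  obtain ⟨hc2, -⟩ := D.UT_entries hcm.1 hcm.2
  have hcm' := hcm
  obtain ⟨⟨⟨a1, a2, a3⟩, a4, a5, a6⟩, -⟩ := hu
  obtain ⟨⟨⟨b1, b2, b3⟩, b4, b5, b6⟩, -⟩ := hv
  obtain ⟨⟨⟨c1, c2, c3⟩, c4, c5, c6⟩, -⟩ := hcm
  have e12 := congrFun (congrFun hrel' 1) 2
  have e02 := congrFun (congrFun hrel' 0) 2
  rw [mul3, mul3, mul3, mul3, mul3] at e12
  rw [mul3, mul3, mul3, mul3, mul3] at e02
  simp only [a1, a4, a5, a6, b1, b2, b3, b4, b5, b6, c1, c4, c5, hu1, hv1, hu2,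
    hv2, hσ2, map_one] at e12 e02
  have f12 : c.1 1 2 = 0 := by linear_combination e12
  have f01 : c.1 0 1 = 0 := by rw [hc2, f12, map_zero]
  refine ⟨c, hcm', f01, f12, ?_⟩
  rw [f01] at e02
  have h2 := two_ne (K := K)
  have e3 : c.1 0 2 = l / 2 + l / 2 := by linear_combination e02
  rw [e3]; field_simp; ring

/-- every element of the unipotent group -/
lemma exists_U (x z : K) (h : z + D.σ z = x * D.σ x) : ∃ u ∈ UT K ⊓ D.E, u.1 0 1 = D.σ x ∧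
    u.1 1 2 = x ∧ u.1 0 2 = z := by
  obtain ⟨u, hu, hu1⟩ := D.XX_top x
  obtain ⟨hu2, hu3⟩ := D.UT_entries hu.1 hu.2
  have hskew : D.σ (z - u.1 0 2) = -(z - u.1 0 2) := by
    rw [map_sub]
    rw [hu1] at hu3
    linear_combination h - hu3
  obtain ⟨v, hv, hv1, hv2, hv3⟩ := D.exists_Z _ hskew
  refine ⟨v * u, (UT K ⊓ D.E).mul_mem hv hu, ?_⟩
  obtain ⟨⟨⟨a1, a2, a3⟩, a4, a5, a6⟩, -⟩ := hu
  obtain ⟨⟨⟨b1, b2, b3⟩, b4, b5, b6⟩, -⟩ := hv
  refine ⟨?_, ?_, ?_⟩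
  · rw [Units.val_mul, mul3, b4, hv1, a3, hu2, hu1]; ring
  · rw [Units.val_mul, mul3, b1, b5, hv2, hu1]; ring
  · rw [Units.val_mul, mul3, b4, hv1, hv3, a6]; ring

end Dat

end Pool.Agent.Helper388_RankOneT
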