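import Pool.Agent.Helper388_RankOneT.Hom

set_option autoImplicit false

open Matrix MatrixGroups

namespace Pool.Agent.Helper388_RankOneT

/-- a field of characteristic seven with an involution and a norm one element -/
structure Dat (K : Type) [Field K] [Algebra (ZMod 7) K] where
  σ : K →+* K
  ξ : K
  hξ : ξ ≠ 0
  hσσ : ∀ a, σ (σ a) = a
  hσξ : σ ξ = ξ⁻¹
  hδ : ξ - ξ⁻¹ ≠ 0
  hgen : ∀ A : Subring K, ξ ^ 3 ∈ A → A = ⊤

namespace Dat

variable {K : Type} [Field K] [Algebra (ZMod 7) K] (D : Dat K)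

/-- the skew element -/
def δ : K := D.ξ - D.ξ⁻¹

lemma δ_ne : D.δ ≠ 0 := D.hδ

lemma σ_inv (a : K) : D.σ a⁻¹ = (D.σ a)⁻¹ := map_inv₀ D.σ a

lemma σδ : D.σ D.δ = -D.δ := by
  simp only [δ, map_sub, D.σ_inv, D.hσξ, inv_inv]; ring

lemma σ_alg (s : ZMod 7) : D.σ (algebraMap (ZMod 7) K s) = algebraMap (ZMod 7) K s := by
  obtain ⟨n, rfl⟩ := ZMod.natCast_zmod_surjective s
  simp

/-- the three rank one matrices -/
def M : Fin 3 → Matrix (Fin 3) (Fin 3) K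
  | 0 => !![0, 0, D.δ; 0, 0, 0; 0, 0, 0]
  | 1 => !![0, 0, 0; 0, 0, 0; -D.δ⁻¹, 0, 0]
  | 2 => !![-D.ξ⁻¹, -D.δ, D.δ; -D.ξ⁻¹, -D.δ, D.δ; -D.δ⁻¹, -D.ξ, D.ξ]

lemma ξ_sq_ne : D.ξ ^ 2 - 1 ≠ 0 := by
  intro h
  have h1 := D.hξ
  apply D.δ_ne
  simp only [δ]; field_simp; linear_combination h

lemma M_sq (i : Fin 3) : D.M i * D.M i = 0 := by
  have h1 := D.hξ
  have h2 := D.δ_ne
  have h3 := D.ξ_sq_ne
  fin_cases i
  · ext a b; fin_cases a <;> fin_cases b <;> simp [M, Matrix.mul_apply, Fin.sum_univ_three]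
  · ext a b; fin_cases a <;> fin_cases b <;> simp [M, Matrix.mul_apply, Fin.sum_univ_three]
  · ext a b
    fin_cases a <;> fin_cases b <;> simp [M, Matrix.mul_apply, Fin.sum_univ_three] <;>
      simp only [δ] at h2 ⊢ <;> field_simp <;> ring

lemma M_tri (i j : Fin 3) (h : i ≠ j) : D.M i * D.M j * D.M i = -D.M i := by
  have h1 := D.hξ
  have h2 := D.δ_ne
  have h3 := D.ξ_sq_ne
  fin_cases i <;> fin_cases j <;> (first | exact absurd rfl h | skip) <;>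
    ext a b <;>
    fin_cases a <;> fin_cases b <;> simp [M, Matrix.mul_apply, Fin.sum_univ_three] <;>
      (try simp only [δ] at h2 ⊢) <;> (try field_simp)

end Dat

end Pool.Agent.Helper388_RankOneT
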