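import Pool.Agent.Helper388_RankOneT.SL2

set_option autoImplicit false

open Matrix MatrixGroups

namespace Pool.Agent.Helper388_RankOneT

variable {F R : Type*} [Field F] [Ring R] [Algebra F R]

/-- the (non unital) homomorphism of the two by two matrices given by matrix units -/
def iot (x y : R) (g : Matrix (Fin 2) (Fin 2) F) : R :=
  g 0 0 • (-(x * y)) + g 0 1 • x + g 1 0 • (-y) + g 1 1 • (-(y * x))

lemma iot_mul {x y : R} (hx : x * x = 0) (hy : y * y = 0) (hxy : x * y * x = -x)
    (hyx : y * x * y = -y) (g h : Matrix (Fin 2) (Fin 2) F) :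
    iot x y g * iot x y h = iot x y (g * h) := by
  have a1 : -(x * y) * -(x * y) = -(x * y) := by
    rw [neg_mul_neg, ← mul_assoc, hxy, neg_mul]
  have a2 : -(x * y) * x = x := by rw [neg_mul, hxy, neg_neg]
  have a3 : -(x * y) * -y = 0 := by rw [neg_mul_neg, mul_assoc, hy, mul_zero]
  have a4 : -(x * y) * -(y * x) = 0 := by
    rw [neg_mul_neg, mul_assoc, ← mul_assoc y y x, hy, zero_mul, mul_zero]
  have b1 : x * -(x * y) = 0 := by rw [mul_neg, ← mul_assoc, hx, zero_mul, neg_zero]
  have b3 : x * -y = -(x * y) := by rw [mul_neg]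
  have b4 : x * -(y * x) = x := by rw [mul_neg, ← mul_assoc, hxy, neg_neg]
  have c1 : -y * -(x * y) = -y := by rw [neg_mul_neg, ← mul_assoc, hyx]
  have c2 : -y * x = -(y * x) := by rw [neg_mul]
  have c3 : -y * -y = 0 := by rw [neg_mul_neg, hy]
  have c4 : -y * -(y * x) = 0 := by rw [neg_mul_neg, ← mul_assoc, hy, zero_mul]
  have d1 : -(y * x) * -(x * y) = 0 := by
    rw [neg_mul_neg, mul_assoc, ← mul_assoc x x y, hx, zero_mul, mul_zero]
  have d2 : -(y * x) * x = 0 := by rw [neg_mul, mul_assoc, hx, mul_zero, neg_zero]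
  have d3 : -(y * x) * -y = -y := by rw [neg_mul_neg, hyx]
  have d4 : -(y * x) * -(y * x) = -(y * x) := by
    rw [neg_mul_neg, ← mul_assoc, hyx, neg_mul]
  simp only [iot, add_mul, mul_add, smul_mul_smul_comm, Matrix.mul_apply, Fin.sum_univ_two,
    a1, a2, a3, a4, b1, hx, b3, b4, c1, c2, c3, c4, d1, d2, d3, d4, smul_zero]
  module

lemma iot_add (x y : R) (g h : Matrix (Fin 2) (Fin 2) F) :
    iot x y (g + h) = iot x y g + iot x y h := by
  simp only [iot, Matrix.add_apply]
  module

lemma iot_sub (x y : R) (g h : Matrix (Fin 2) (Fin 2) F) :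
    iot x y (g - h) = iot x y g - iot x y h := by
  simp only [iot, Matrix.sub_apply]
  module

/-- the homomorphism from `SL₂` -/
def slHom {x y : R} (hx : x * x = 0) (hy : y * y = 0) (hxy : x * y * x = -x)
    (hyx : y * x * y = -y) : SL(2, F) →* R where
  toFun g := 1 + iot x y (g.1 - 1)
  map_one' := by simp [iot]
  map_mul' g h := by
    have e : iot x y (g.1 * h.1 - 1) = iot x y (g.1 - 1) + iot x y (h.1 - 1) +
        iot x y (g.1 - 1) * iot x y (h.1 - 1) := by
      rw [iot_mul hx hy hxy hyx, ← iot_add, ← iot_add]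
      congr 1
      noncomm_ring
    rw [Matrix.SpecialLinearGroup.coe_mul, e]
    noncomm_ring

/-- transvections as units -/
def tU (x : R) (hx : x * x = 0) (s : F) : Rˣ where
  val := 1 + s • x
  inv := 1 - s • x
  val_inv := by
    have h : (s • x) * (s • x) = 0 := by rw [smul_mul_smul_comm, hx, smul_zero]
    rw [mul_sub, add_mul (1 : R) _ (s • x), h]; simp
  inv_val := by
    have h : (s • x) * (s • x) = 0 := by rw [smul_mul_smul_comm, hx, smul_zero]
    rw [sub_mul, mul_add (s • x), h]; simp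

@[simp] lemma tU_val (x : R) (hx : x * x = 0) (s : F) : (tU x hx s : R) = 1 + s • x := rfl

/-- the homomorphism from `SL₂` to the units -/
def slU {x y : R} (hx : x * x = 0) (hy : y * y = 0) (hxy : x * y * x = -x)
    (hyx : y * x * y = -y) : SL(2, F) →* Rˣ := (slHom hx hy hxy hyx).toHomUnits

lemma slU_val {x y : R} (hx : x * x = 0) (hy : y * y = 0) (hxy : x * y * x = -x)
    (hyx : y * x * y = -y) (g : SL(2, F)) :
    (slU hx hy hxy hyx g : R) = 1 + iot x y (g.1 - 1) := rfl

lemma slU_up {x y : R} (hx : x * x = 0) (hy : y * y = 0) (hxy : x * y * x = -x)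
    (hyx : y * x * y = -y) (s : F) : slU hx hy hxy hyx (up s) = tU x hx s := by
  apply Units.ext
  rw [slU_val, tU_val]
  simp [iot]

lemma slU_lo {x y : R} (hx : x * x = 0) (hy : y * y = 0) (hxy : x * y * x = -x)
    (hyx : y * x * y = -y) (s : F) : slU hx hy hxy hyx (lo s) = tU y hy (-s) := by
  apply Units.ext
  rw [slU_val, tU_val]
  simp [iot]

end Pool.Agent.Helper388_RankOneT
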