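import Pool.Agent.Helper388_RankOneT.Gen
import Pool.Agent.Helper388_RankOneT.BN

set_option autoImplicit false

open Matrix MatrixGroups
open scoped commutatorElement

namespace Pool.Agent.Helper388_RankOneT

variable (K : Type) [Field K] in
/-- the root group -/
def ZT : Subgroup (Matrix (Fin 3) (Fin 3) K)ˣ where
  carrier := {g | g ∈ UT K ∧ g.1 1 2 = 0}
  one_mem' := ⟨(UT K).one_mem, by simp⟩
  mul_mem' := by
    rintro a b ⟨ha, ha2⟩ ⟨hb, hb2⟩
    refine ⟨(UT K).mul_mem ha hb, ?_⟩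
    rw [Units.val_mul, mul3, ha.1.1, ha2, hb2]; ring
  inv_mem' := by
    rintro a ⟨ha, ha2⟩
    have ha' := (UT K).inv_mem ha
    refine ⟨ha', ?_⟩
    have h1 : a.1 * (a⁻¹).1 = 1 := a.mul_inv
    have e := congrFun (congrFun h1 1) 2
    rw [mul3, ha.1.1, ha.2.2.1, ha2] at e
    have e' : (1 : Matrix (Fin 3) (Fin 3) K) 1 2 = 0 := by simp
    rw [e'] at e
    linear_combination e

lemma lo_conj (s : ZMod 7) : (lo (-s) : SL(2, ZMod 7)) = ww⁻¹ * up s * (ww⁻¹)⁻¹ := by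
  rw [inv_inv]
  apply Subtype.ext
  rw [Matrix.SpecialLinearGroup.coe_mul, Matrix.SpecialLinearGroup.coe_mul, Dat.wwi_val, lo_val,
    up_val, ww_val]
  ext i j; fin_cases i <;> fin_cases j <;> simp

lemma up_comm (s : ZMod 7) : (up s : SL(2, ZMod 7)) ∈ commutator SL(2, ZMod 7) := by
  have h : (up s : SL(2, ZMod 7)) = ⁅tor (⟨2, 4, by decide, by decide⟩ : (ZMod 7)ˣ), up (s * 5)⁆ := by
    rw [commutatorElement_def, tor_up, mul_inv_cancel_right]
    have h2 : (up (s * 5) : SL(2, ZMod 7))⁻¹ = up (-(s * 5)) := by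
      rw [inv_eq_iff_mul_eq_one, ← up_add, add_neg_cancel]
      apply Subtype.ext
      rw [up_val, Matrix.SpecialLinearGroup.coe_one]
      ext i j; fin_cases i <;> fin_cases j <;> simp
    rw [h2, ← up_add]
    congr 1
    have : ((2 : ZMod 7) ^ 2 * (s * 5) + -(s * 5)) = s * 15 := by ring
    show s = (2 : ZMod 7) ^ 2 * (s * 5) + -(s * 5)
    rw [this, show (15 : ZMod 7) = 1 from by decide, mul_one]
  rw [h, commutator_def]
  exact Subgroup.commutator_mem_commutator (Subgroup.mem_top _) (Subgroup.mem_top _)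

namespace Dat

variable {K : Type} [Field K] [Algebra (ZMod 7) K] (D : Dat K)

omit [Algebra (ZMod 7) K] in
lemma eq_one_of_UT {u : (Matrix (Fin 3) (Fin 3) K)ˣ} (hu : u ∈ UT K) (h01 : u.1 0 1 = 0)
    (h12 : u.1 1 2 = 0) (h02 : u.1 0 2 = 0) : u = 1 := by
  obtain ⟨⟨a1, a2, a3⟩, a4, a5, a6⟩ := hu
  apply Units.ext
  ext i j
  fin_cases i <;> fin_cases j <;> simp [a1, a2, a3, a4, a5, a6, h01, h12, h02]

/-- elements outside the triangular group -/
lemma big_cell {e : (Matrix (Fin 3) (Fin 3) K)ˣ} (he : e ∈ D.E) (hB : e ∉ BT K) :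
    ∃ u ∈ UT K ⊓ D.E, (u * D.n01)⁻¹ * e ∈ BT K := by
  have hU := D.isU_of_mem he
  have e00 := D.isU_entry hU 0 0
  have e10 := D.isU_entry hU 1 0
  simp only [J] at e00 e10
  simp at e00 e10
  have h20 : e.1 2 0 ≠ 0 := by
    intro h
    apply hB
    rw [h] at e00 e10
    simp at e00 e10
    have h10 : e.1 1 0 = 0 := e00
    refine ⟨h10, h, ?_⟩
    rw [h10] at e10
    simp at e10
    rcases e10 with h' | h'
    · exact h'
    · -- the first column is zero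
      exfalso
      have h3 : (e⁻¹).1 * e.1 = 1 := e.inv_mul
      have h4 := congrFun (congrFun h3 0) 0
      rw [mul3, h', h10, h] at h4
      simp at h4
  have hz : e.1 0 0 * (e.1 2 0)⁻¹ + D.σ (e.1 0 0 * (e.1 2 0)⁻¹) =
      (e.1 1 0 * (e.1 2 0)⁻¹) * D.σ (e.1 1 0 * (e.1 2 0)⁻¹) := by
    have hs : D.σ (e.1 2 0) ≠ 0 := by
      intro h; exact h20 ((map_eq_zero D.σ).1 h)
    rw [map_mul, map_mul, D.σ_inv]
    field_simp
    linear_combination e00
  obtain ⟨u, hu, u01, u12, u02⟩ := D.exists_U _ _ hz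
  refine ⟨u, hu, ?_⟩
  set b := (u * D.n01)⁻¹ * e with hb
  have hbE : b ∈ D.E := by
    rw [hb]
    exact D.E.mul_mem (D.E.inv_mem (D.E.mul_mem hu.2 (D.phi_mem _ _ _ _))) he
  have hrel : u * (D.n01 * b) = e := by rw [hb]; group
  have hrel' : u.1 * ((D.n01).1 * b.1) = e.1 := by
    rw [← Units.val_mul, ← Units.val_mul, hrel]
  have c0 := congrFun (congrFun hrel' 0) 0
  have c1 := congrFun (congrFun hrel' 1) 0
  have c2 := congrFun (congrFun hrel' 2) 0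
  obtain ⟨⟨⟨a1, a2, a3⟩, a4, a5, a6⟩, -⟩ := hu
  rw [mul3, mul3, mul3, mul3, n01_val] at c0 c1 c2
  simp [a1, a2, a3, a4, a5, a6, u01, u12, u02] at c0 c1 c2
  have b10 : b.1 1 0 = 0 := by
    have h1 : b.1 1 0 + e.1 1 0 * (e.1 2 0)⁻¹ * e.1 2 0 = e.1 1 0 := by
      linear_combination c1 - (e.1 1 0 * (e.1 2 0)⁻¹) * c2
    rw [mul_assoc, inv_mul_cancel₀ h20] at h1
    linear_combination h1
  have b20 : b.1 2 0 = 0 := by
    have h1 : D.δ * b.1 2 0 + e.1 0 0 * (e.1 2 0)⁻¹ * e.1 2 0 = e.1 0 0 := by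
      rw [b10] at c0
      linear_combination c0 - (e.1 0 0 * (e.1 2 0)⁻¹) * c2
    rw [mul_assoc, inv_mul_cancel₀ h20] at h1
    have h2 : D.δ * b.1 2 0 = 0 := by linear_combination h1
    exact (mul_eq_zero.1 h2).resolve_left D.δ_ne
  -- unitarity
  have f10 := D.isU_entry (D.isU_of_mem hbE) 1 0
  rw [b10, b20] at f10
  simp [J] at f10
  refine ⟨b10, b20, ?_⟩
  rcases f10 with h | h
  · exact h
  · exfalso
    have h3 : (b⁻¹).1 * b.1 = 1 := b.inv_mul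
    have h4 := congrFun (congrFun h3 0) 0
    rw [mul3, h, b10, b20] at h4
    simp at h4

lemma reg_aux {u : (Matrix (Fin 3) (Fin 3) K)ˣ} (hu : u ∈ UT K) (hE : u ∈ D.E)
    (h : (D.n01)⁻¹ * u * D.n01 ∈ BT K) : u = 1 := by
  set b := (D.n01)⁻¹ * u * D.n01 with hb
  have hrel : D.n01 * b = u * D.n01 := by rw [hb]; group
  have hrel' : (D.n01).1 * b.1 = u.1 * (D.n01).1 := by
    rw [← Units.val_mul, hrel, Units.val_mul]
  have c0 := congrFun (congrFun hrel' 0) 0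
  have c1 := congrFun (congrFun hrel' 1) 0
  rw [mul3, mul3, n01_val, h.1] at c0 c1
  rw [h.2.1] at c0
  simp [hu.1.1, D.δ_ne] at c0 c1
  have h02 : u.1 0 2 = 0 := c0
  have h12 : u.1 1 2 = 0 := c1
  obtain ⟨h01, -⟩ := D.UT_entries hu hE
  rw [h12, map_zero] at h01
  exact eq_one_of_UT hu h01 h12 h02

/-- the homomorphisms from `SL₂` into the group -/
def phiE (i j : Fin 3) (h : i ≠ j) : SL(2, ZMod 7) →* D.E :=
  (D.phi i j h).codRestrict D.E (D.phi_mem i j h)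

/-- the generators as elements of the group -/
def tE (i : Fin 3) (s : ZMod 7) : D.E := ⟨D.t i s, D.t_mem i s⟩

lemma phiE_up (i j : Fin 3) (h : i ≠ j) (s : ZMod 7) : D.phiE i j h (up s) = D.tE i s :=
  Subtype.ext (D.phi_up i j h s)

lemma phiE_lo (i j : Fin 3) (h : i ≠ j) (s : ZMod 7) : D.phiE i j h (lo s) = D.tE j (-s) :=
  Subtype.ext (D.phi_lo i j h s)

lemma closure_tE : Subgroup.closure {g | ∃ i s, g = D.tE i s} = ⊤ := by
  have h := Subgroup.closure_closure_coe_preimage (k := {g | ∃ i s, g = D.t i s})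
  rw [eq_top_iff]
  change (⊤ : Subgroup (Subgroup.closure {g | ∃ i s, g = D.t i s})) ≤ _
  rw [← h]
  apply Subgroup.closure_mono
  rintro ⟨g, hg⟩ ⟨i, s, hi⟩
  exact ⟨i, s, Subtype.ext hi⟩

lemma perf : commutator D.E = ⊤ := by
  rw [eq_top_iff, ← D.closure_tE, Subgroup.closure_le]
  rintro _ ⟨i, s, rfl⟩
  obtain ⟨j, hj⟩ : ∃ j : Fin 3, i ≠ j := by
    fin_cases i
    · exact ⟨1, by decide⟩
    · exact ⟨0, by decide⟩
    · exact ⟨0, by decide⟩
  rw [← D.phiE_up i j hj]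
  have h1 : Subgroup.map (D.phiE i j hj) (commutator SL(2, ZMod 7)) ≤ commutator D.E := by
    rw [commutator_def, Subgroup.map_commutator, commutator_def]
    exact Subgroup.commutator_mono le_top le_top
  exact h1 ⟨_, up_comm s, rfl⟩

lemma t0_ZT (s : ZMod 7) : D.t 0 s ∈ ZT K := by
  refine ⟨⟨⟨?_, ?_, ?_⟩, ?_, ?_, ?_⟩, ?_⟩ <;> rw [t_val] <;> simp [M]

lemma tE_conj (i : Fin 3) (s : ZMod 7) : ∃ e : D.E, D.tE i s = e * D.tE 0 s * e⁻¹ := by
  by_cases h : i = 0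
  · subst h
    exact ⟨1, by simp⟩
  · refine ⟨D.phiE 0 i (Ne.symm h) ww⁻¹, ?_⟩
    have h1 := D.phiE_lo 0 i (Ne.symm h) (-s)
    rw [neg_neg, lo_conj, map_mul, map_mul, phiE_up, map_inv (D.phiE 0 i (Ne.symm h)) (ww⁻¹)] at h1
    exact h1.symm

theorem bn : BN ((BT K).subgroupOf D.E) ((UT K).subgroupOf D.E) ((ZT K).subgroupOf D.E)
    (⟨D.n01, D.phi_mem _ _ _ _⟩ : D.E) where
  UB := by
    intro u hu
    exact UT_le_BT hu
  norm := by
    rintro ⟨b, hb⟩ hb2 ⟨u, hu⟩ hu2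
    exact (conj_UT hb2 hu2).1
  big := by
    rintro ⟨e, he⟩ heB
    obtain ⟨u, hu, h⟩ := D.big_cell he heB
    exact ⟨⟨u, hu.2⟩, hu.1, h⟩
  reg := by
    rintro ⟨u, hu⟩ hu2 h
    exact Subtype.ext (D.reg_aux hu2 hu h)
  nB := by
    intro h
    have h1 : (D.n01).1 2 0 = 0 := h.2.1
    rw [n01_val] at h1
    simp [D.δ_ne] at h1
  nontriv := by
    have h2 := two_ne (K := K)
    have h1 : (1 / 2 : K) + D.σ (1 / 2) = 1 * D.σ 1 := by
      rw [map_div₀, map_one, map_ofNat]; field_simp; ring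
    obtain ⟨u, hu, -, h12, -⟩ := D.exists_U 1 (1 / 2) h1
    refine ⟨⟨u, hu.2⟩, hu.1, ?_⟩
    intro h
    have h3 : u = 1 := congrArg Subtype.val h
    rw [h3] at h12
    simp at h12
  Zc := by
    rintro ⟨a, ha⟩ ha2 ⟨b, hb⟩ hb2
    apply Subtype.ext
    have hA : a ∈ UT K := ha2.1
    have hB : b ∈ UT K := hb2.1
    have hA2 : a.1 1 2 = 0 := ha2.2
    have hB2 : b.1 1 2 = 0 := hb2.2
    obtain ⟨hA3, -⟩ := D.UT_entries hA ha
    obtain ⟨hB3, -⟩ := D.UT_entries hB hb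
    rw [hA2, map_zero] at hA3
    rw [hB2, map_zero] at hB3
    show a * b = b * a
    have hab : a * b * (b * a)⁻¹ ∈ UT K :=
      (UT K).mul_mem ((UT K).mul_mem hA hB) ((UT K).inv_mem ((UT K).mul_mem hB hA))
    obtain ⟨⟨a1, a2, a3⟩, a4, a5, a6⟩ := hA
    obtain ⟨⟨b1, b2, b3⟩, b4, b5, b6⟩ := hB
    apply Units.ext
    rw [Units.val_mul, Units.val_mul]
    ext i j
    rw [mul3, mul3]
    fin_cases i <;> fin_cases j <;>
      simp [a1, a2, a3, a4, a5, a6, b1, b2, b3, b4, b5, b6, hA2, hB2, hA3, hB3, add_comm]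
  Znorm := by
    rintro ⟨b, hb⟩ hb2 ⟨z, hz⟩ hz2
    have h1 := conj_UT (K := K) hb2 hz2.1
    refine ⟨h1.1, ?_⟩
    have h2 : (b * z * b⁻¹).1 1 2 * b.1 2 2 = b.1 1 1 * z.1 1 2 := h1.2
    have h3 : z.1 1 2 = 0 := hz2.2
    rw [h3, mul_zero] at h2
    show (b * z * b⁻¹).1 1 2 = 0
    exact (mul_eq_zero.1 h2).resolve_right (BT_ne (K := K) hb2).2.2
  gen := by
    rw [eq_top_iff, ← D.closure_tE]
    apply Subgroup.closure_mono
    rintro _ ⟨i, s, rfl⟩
    obtain ⟨e, he⟩ := D.tE_conj i s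
    exact ⟨e, D.tE 0 s, D.t0_ZT s, he⟩
  perf := D.perf

end Dat

end Pool.Agent.Helper388_RankOneT
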