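import Pool.Agent.Helper388_RankOneT.Tri

set_option autoImplicit false

open Matrix MatrixGroups

namespace Pool.Agent.Helper388_RankOneT

namespace Dat

variable {K : Type} [Field K] [Algebra (ZMod 7) K] (D : Dat K)

lemma phi_val (i j : Fin 3) (h : i ≠ j) (g : SL(2, ZMod 7)) :
    (D.phi i j h g).1 = 1 + iot (D.M i) (D.M j) (g.1 - 1) := rfl

lemma wwi_val : ((ww⁻¹ : SL(2, ZMod 7))).1 = !![0, 1; -1, 0] := by
  rw [Matrix.SpecialLinearGroup.coe_inv, ww_val, Matrix.adjugate_fin_two]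
  ext i j; fin_cases i <;> fin_cases j <;> simp

lemma nval (i j : Fin 3) (h : i ≠ j) :
    (D.phi i j h ww⁻¹).1 = 1 + (D.M i * D.M j + D.M i + D.M j + D.M j * D.M i) := by
  rw [phi_val, wwi_val]
  simp only [iot, Matrix.sub_apply]
  simp

/-- the first Weyl element -/
def n01 : (Matrix (Fin 3) (Fin 3) K)ˣ := D.phi 0 1 (by decide) ww⁻¹

def n12 : (Matrix (Fin 3) (Fin 3) K)ˣ := D.phi 1 2 (by decide) ww⁻¹

def n20 : (Matrix (Fin 3) (Fin 3) K)ˣ := D.phi 2 0 (by decide) ww⁻¹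

lemma n01_val : (D.n01).1 = !![0, 0, D.δ; 0, 1, 0; -D.δ⁻¹, 0, 0] := by
  have h2 := D.δ_ne
  rw [n01, nval]
  ext a b
  simp only [Matrix.add_apply, mul3]
  fin_cases a <;> fin_cases b <;> simp [M, h2]

lemma n12_val : (D.n12).1 = !![-D.ξ⁻¹, -D.δ, D.δ; -1 - D.ξ⁻¹, 1 - D.δ, D.δ;
    -2 * D.δ⁻¹ - 1, 1 - D.ξ, D.ξ] := by
  have h1 := D.hξ
  have h2 := D.δ_ne
  have h3 := D.ξ_sq_ne
  rw [n12, nval]
  ext a b
  simp only [Matrix.add_apply, mul3]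
  fin_cases a <;> fin_cases b <;> simp [M, h2] <;> simp only [δ] at h2 ⊢ <;> field_simp <;> ring

lemma n20_val : (D.n20).1 = !![-D.ξ⁻¹, -D.δ * (1 + D.ξ), D.δ * (2 - D.ξ⁻¹ + D.ξ);
    -D.ξ⁻¹, 1 - D.δ, D.δ * (1 - D.ξ⁻¹); -D.δ⁻¹, -D.ξ, D.ξ] := by
  have h1 := D.hξ
  have h2 := D.δ_ne
  have h3 := D.ξ_sq_ne
  rw [n20, nval]
  ext a b
  simp only [Matrix.add_apply, mul3]
  fin_cases a <;> fin_cases b <;> simp [M, h2] <;> simp only [δ] at h2 ⊢ <;> field_simp <;> ring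

/-- the triangular element -/
def gg : (Matrix (Fin 3) (Fin 3) K)ˣ := D.n20 * D.n12 * D.n01

lemma gg_entries : (D.gg).1 1 0 = 0 ∧ (D.gg).1 2 0 = 0 ∧ (D.gg).1 2 1 = 0 ∧
    (D.gg).1 1 1 = D.ξ⁻¹ ^ 2 ∧ (D.gg).1 2 2 = -D.ξ ∧
    (D.gg).1 1 2 = -D.δ * (1 - D.ξ⁻¹ + D.ξ⁻¹ ^ 2) := by
  have h1 := D.hξ
  have h2 := D.δ_ne
  have h3 := D.ξ_sq_ne
  rw [gg, Units.val_mul, Units.val_mul, n01_val, n12_val, n20_val]
  refine ⟨?_, ?_, ?_, ?_, ?_, ?_⟩ <;> rw [mul3, mul3, mul3, mul3] <;> simp [h2] <;>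
    simp only [δ] at h2 ⊢ <;> field_simp <;> ring

lemma gg_mem : D.gg ∈ D.E :=
  D.E.mul_mem (D.E.mul_mem (D.phi_mem _ _ _ _) (D.phi_mem _ _ _ _)) (D.phi_mem _ _ _ _)

lemma gg_BT : D.gg ∈ BT K :=
  ⟨D.gg_entries.1, D.gg_entries.2.1, D.gg_entries.2.2.1⟩

/-- the torus element -/
def hh : (Matrix (Fin 3) (Fin 3) K)ˣ := D.phi 0 1 (by decide) (tor ⟨2, 4, by decide, by decide⟩)

lemma hh_val : (D.hh).1 = !![2, 0, 0; 0, 1, 0; 0, 0, 4] := by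
  have h2 := D.δ_ne
  rw [hh, phi_val, tor_val]
  simp only [iot, Matrix.sub_apply]
  ext a b
  simp only [Matrix.add_apply, Matrix.smul_apply, Matrix.neg_apply, mul3]
  fin_cases a <;> fin_cases b <;> simp [M, h2, Algebra.smul_def, map_ofNat]

lemma hh_mem : D.hh ∈ D.E := D.phi_mem _ _ _ _

lemma hh_BT : D.hh ∈ BT K := by
  refine ⟨?_, ?_, ?_⟩ <;> rw [hh_val] <;> simp

end Dat

end Pool.Agent.Helper388_RankOneT
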