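import Pool.Agent.Helper388_RankOneT.Uni

set_option autoImplicit false

open Matrix MatrixGroups

namespace Pool.Agent.Helper388_RankOneT

section tri

variable {K : Type} [Field K]

lemma mul3 (g h : Matrix (Fin 3) (Fin 3) K) (i j : Fin 3) :
    (g * h) i j = g i 0 * h 0 j + g i 1 * h 1 j + g i 2 * h 2 j := by
  rw [Matrix.mul_apply, Fin.sum_univ_three]

lemma tri_diag0 {g k : Matrix (Fin 3) (Fin 3) K} (hk : k * g = 1) (h10 : g 1 0 = 0)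
    (h20 : g 2 0 = 0) (h21 : g 2 1 = 0) : k 1 0 = 0 ∧ k 2 0 = 0 ∧ k 2 1 = 0 ∧
    k 0 0 * g 0 0 = 1 ∧ k 1 1 * g 1 1 = 1 ∧ k 2 2 * g 2 2 = 1 := by
  have inv3 : ∀ i j, k i 0 * g 0 j + k i 1 * g 1 j + k i 2 * g 2 j =
      (1 : Matrix (Fin 3) (Fin 3) K) i j := by
    intro i j
    rw [← mul3, hk]
  have e00 := inv3 0 0
  have e10 := inv3 1 0
  have e20 := inv3 2 0
  have e11 := inv3 1 1
  have e21 := inv3 2 1
  have e22 := inv3 2 2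
  rw [h10, h20] at e00 e10 e20
  rw [h21] at e11 e21
  simp at e00 e10 e20 e11 e21 e22
  have hg0 : g 0 0 ≠ 0 := by
    intro h; rw [h] at e00; simp at e00
  have a10 : k 1 0 = 0 := by
    rcases e10 with h | h
    · exact h
    · exact absurd h hg0
  have a20 : k 2 0 = 0 := by
    rcases e20 with h | h
    · exact h
    · exact absurd h hg0
  have e11' : k 1 1 * g 1 1 = 1 := by
    rw [a10] at e11; simpa using e11
  have hg1 : g 1 1 ≠ 0 := by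
    intro h; rw [h] at e11'; simp at e11'
  have a21 : k 2 1 = 0 := by
    rw [a20] at e21
    have h2 : k 2 1 * g 1 1 = 0 := by simpa using e21
    rcases mul_eq_zero.1 h2 with h | h
    · exact h
    · exact absurd h hg1
  refine ⟨a10, a20, a21, e00, e11', ?_⟩
  rw [a20, a21] at e22; simpa using e22

lemma tri_diag {g : (Matrix (Fin 3) (Fin 3) K)ˣ} (h10 : g.1 1 0 = 0) (h20 : g.1 2 0 = 0)
    (h21 : g.1 2 1 = 0) : (g⁻¹).1 1 0 = 0 ∧ (g⁻¹).1 2 0 = 0 ∧ (g⁻¹).1 2 1 = 0 ∧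
    (g⁻¹).1 0 0 * g.1 0 0 = 1 ∧ (g⁻¹).1 1 1 * g.1 1 1 = 1 ∧ (g⁻¹).1 2 2 * g.1 2 2 = 1 :=
  tri_diag0 g.inv_mul h10 h20 h21

variable (K) in
/-- upper triangular matrices -/
def BT : Subgroup (Matrix (Fin 3) (Fin 3) K)ˣ where
  carrier := {g | g.1 1 0 = 0 ∧ g.1 2 0 = 0 ∧ g.1 2 1 = 0}
  one_mem' := by simp
  mul_mem' := by
    rintro a b ⟨a1, a2, a3⟩ ⟨b1, b2, b3⟩
    refine ⟨?_, ?_, ?_⟩
    · rw [Units.val_mul, mul3, a1, b1, b2]; ring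
    · rw [Units.val_mul, mul3, a2, b1, b2]; ring
    · rw [Units.val_mul, mul3, a2, a3, b3]; ring
  inv_mem' := by
    rintro a ⟨a1, a2, a3⟩
    obtain ⟨h1, h2, h3, -⟩ := tri_diag a1 a2 a3
    exact ⟨h1, h2, h3⟩

variable (K) in
/-- upper unitriangular matrices -/
def UT : Subgroup (Matrix (Fin 3) (Fin 3) K)ˣ where
  carrier := {g | (g.1 1 0 = 0 ∧ g.1 2 0 = 0 ∧ g.1 2 1 = 0) ∧ g.1 0 0 = 1 ∧ g.1 1 1 = 1 ∧ g.1 2 2 = 1}
  one_mem' := by simp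
  mul_mem' := by
    rintro a b ⟨⟨a1, a2, a3⟩, a4, a5, a6⟩ ⟨⟨b1, b2, b3⟩, b4, b5, b6⟩
    refine ⟨⟨?_, ?_, ?_⟩, ?_, ?_, ?_⟩
    · rw [Units.val_mul, mul3, a1, b1, b2]; ring
    · rw [Units.val_mul, mul3, a2, b1, b2]; ring
    · rw [Units.val_mul, mul3, a2, a3, b3]; ring
    · rw [Units.val_mul, mul3, a4, b4, b1, b2]; ring
    · rw [Units.val_mul, mul3, a1, a5, b5, b3]; ring
    · rw [Units.val_mul, mul3, a2, a3, a6, b6]; ring
  inv_mem' := by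
    rintro a ⟨⟨a1, a2, a3⟩, a4, a5, a6⟩
    obtain ⟨h1, h2, h3, h4, h5, h6⟩ := tri_diag a1 a2 a3
    rw [a4, mul_one] at h4
    rw [a5, mul_one] at h5
    rw [a6, mul_one] at h6
    exact ⟨⟨h1, h2, h3⟩, h4, h5, h6⟩

lemma UT_le_BT : UT K ≤ BT K := fun _ h => h.1

lemma BT_ne {g : (Matrix (Fin 3) (Fin 3) K)ˣ} (hg : g ∈ BT K) :
    g.1 0 0 ≠ 0 ∧ g.1 1 1 ≠ 0 ∧ g.1 2 2 ≠ 0 := by
  obtain ⟨_, _, _, h4, h5, h6⟩ := tri_diag hg.1 hg.2.1 hg.2.2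
  exact ⟨right_ne_zero_of_mul_eq_one h4, right_ne_zero_of_mul_eq_one h5,
    right_ne_zero_of_mul_eq_one h6⟩

/-- conjugation of a unitriangular matrix -/
lemma conj_UT {b u : (Matrix (Fin 3) (Fin 3) K)ˣ} (hb : b ∈ BT K) (hu : u ∈ UT K) :
    b * u * b⁻¹ ∈ UT K ∧ (b * u * b⁻¹).1 1 2 * b.1 2 2 = b.1 1 1 * u.1 1 2 := by
  have hv : b * u * b⁻¹ ∈ BT K := (BT K).mul_mem ((BT K).mul_mem hb (UT_le_BT hu)) ((BT K).inv_mem hb)
  obtain ⟨n0, n1, n2⟩ := BT_ne hb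
  set v := b * u * b⁻¹ with hvd
  have hvb : v.1 * b.1 = b.1 * u.1 := by
    have : v * b = b * u := by rw [hvd]; group
    rw [← Units.val_mul, this, Units.val_mul]
  obtain ⟨v1, v2, v3⟩ := hv
  obtain ⟨b1, b2, b3⟩ := hb
  obtain ⟨⟨u1, u2, u3⟩, u4, u5, u6⟩ := hu
  have e00 := congrFun (congrFun hvb 0) 0
  have e11 := congrFun (congrFun hvb 1) 1
  have e22 := congrFun (congrFun hvb 2) 2
  have e12 := congrFun (congrFun hvb 1) 2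
  rw [mul3, mul3] at e00 e11 e22 e12
  simp only [v1, v2, v3, b1, b2, b3, u1, u2, u3, u4, u5, u6, mul_zero, zero_mul, add_zero,
    zero_add, mul_one] at e00 e11 e22 e12
  have f00 : v.1 0 0 = 1 := mul_right_cancel₀ n0 (by rw [e00, one_mul])
  have f11 : v.1 1 1 = 1 := mul_right_cancel₀ n1 (by rw [e11, one_mul])
  have f22 : v.1 2 2 = 1 := mul_right_cancel₀ n2 (by rw [e22, one_mul])
  refine ⟨⟨⟨v1, v2, v3⟩, f00, f11, f22⟩, ?_⟩
  rw [f11] at e12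
  linear_combination e12

end tri

end Pool.Agent.Helper388_RankOneT
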