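import Pool.Agent.Helper388_RankOneT.Grp

set_option autoImplicit false

open Matrix MatrixGroups

namespace Pool.Agent.Helper388_RankOneT

instance : Fact (Nat.Prime 7) := ⟨by norm_num⟩

namespace Dat

variable {K : Type} [Field K] [Algebra (ZMod 7) K] (D : Dat K)

/-- the matrix of the form -/
def J : Matrix (Fin 3) (Fin 3) K := !![0, 0, 1; 0, -1, 0; 1, 0, 0]

/-- unitary matrices -/
def IsU (g : Matrix (Fin 3) (Fin 3) K) : Prop := gᵀ * J * g.map D.σ = J

lemma isU_one : D.IsU 1 := by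
  simp [IsU]

lemma isU_mul {g h : Matrix (Fin 3) (Fin 3) K} (hg : D.IsU g) (hh : D.IsU h) : D.IsU (g * h) := by
  unfold IsU at *
  rw [Matrix.transpose_mul, Matrix.map_mul]
  calc hᵀ * gᵀ * J * (g.map D.σ * h.map D.σ) = hᵀ * (gᵀ * J * g.map D.σ) * h.map D.σ := by
        simp only [Matrix.mul_assoc]
    _ = J := by rw [hg, hh]

lemma isU_inv {g h : Matrix (Fin 3) (Fin 3) K} (hg : D.IsU g) (hgh : g * h = 1) : D.IsU h := by
  unfold IsU at *
  have h1 : hᵀ * gᵀ = 1 := by rw [← Matrix.transpose_mul, hgh, Matrix.transpose_one]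
  have h2 : g.map D.σ * h.map D.σ = 1 := by
    rw [← Matrix.map_mul, hgh]; simp
  calc hᵀ * J * h.map D.σ = hᵀ * (gᵀ * J * g.map D.σ) * h.map D.σ := by rw [hg]
    _ = (hᵀ * gᵀ) * J * (g.map D.σ * h.map D.σ) := by simp only [Matrix.mul_assoc]
    _ = J := by rw [h1, h2, Matrix.one_mul, Matrix.mul_one]

/-- the entries of the unitarity relation -/
lemma isU_entry {g : Matrix (Fin 3) (Fin 3) K} (hg : D.IsU g) (i j : Fin 3) :
    g 0 i * D.σ (g 2 j) - g 1 i * D.σ (g 1 j) + g 2 i * D.σ (g 0 j) = (J i j : K) := by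
  rw [← hg]
  simp [J, Matrix.mul_apply, Fin.sum_univ_three]
  ring

lemma M_skew (i : Fin 3) : (D.M i)ᵀ * J + J * (D.M i).map D.σ = 0 := by
  have h1 := D.hξ
  have h2 := D.δ_ne
  have h3 := D.ξ_sq_ne
  have h4 : D.σ D.δ⁻¹ = -D.δ⁻¹ := by rw [D.σ_inv, D.σδ, inv_neg]
  have h5 : D.σ D.ξ⁻¹ = D.ξ := by rw [D.σ_inv, D.hσξ, inv_inv]
  fin_cases i <;>
    ext a b <;>
    simp only [Matrix.add_apply, Matrix.mul_apply, Fin.sum_univ_three, Matrix.transpose_apply,
      Matrix.map_apply] <;>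
    fin_cases a <;> fin_cases b <;>
      simp [M, J, D.σδ, h4, h5, D.hσξ]

/-- the generators -/
def t (i : Fin 3) (s : ZMod 7) : (Matrix (Fin 3) (Fin 3) K)ˣ := tU (D.M i) (D.M_sq i) s

lemma t_val (i : Fin 3) (s : ZMod 7) : (D.t i s).1 = 1 + s • D.M i := rfl

lemma isU_t (i : Fin 3) (s : ZMod 7) : D.IsU (D.t i s).1 := by
  unfold IsU
  rw [t_val]
  have hs : (s • D.M i).map D.σ = s • (D.M i).map D.σ := by
    ext a b
    simp only [Matrix.map_apply, Matrix.smul_apply]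
    rw [Algebra.smul_def, Algebra.smul_def, map_mul, D.σ_alg]
  have h1 := D.M_skew i
  have h2 : (D.M i)ᵀ * J = -(J * (D.M i).map D.σ) := eq_neg_of_add_eq_zero_left h1
  have h3 : (D.M i).map D.σ * (D.M i).map D.σ = 0 := by
    rw [← Matrix.map_mul, D.M_sq]; simp
  rw [Matrix.transpose_add, Matrix.transpose_smul, Matrix.transpose_one,
    Matrix.map_add _ (map_add D.σ), hs]
  have h4 : (1 : Matrix (Fin 3) (Fin 3) K).map D.σ = 1 := by simp
  rw [h4]
  simp only [Matrix.add_mul, Matrix.mul_add, Matrix.one_mul, Matrix.mul_one, Matrix.smul_mul,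
    Matrix.mul_smul, h2, Matrix.neg_mul, Matrix.mul_assoc, h3, Matrix.mul_zero, neg_zero, smul_zero]
  simp

/-- the group generated by the three lines -/
def E : Subgroup (Matrix (Fin 3) (Fin 3) K)ˣ := Subgroup.closure {g | ∃ i s, g = D.t i s}

lemma t_mem (i : Fin 3) (s : ZMod 7) : D.t i s ∈ D.E := Subgroup.subset_closure ⟨i, s, rfl⟩

lemma isU_of_mem {g : (Matrix (Fin 3) (Fin 3) K)ˣ} (hg : g ∈ D.E) : D.IsU g.1 := by
  refine Subgroup.closure_induction (p := fun g _ => D.IsU g.1) ?_ ?_ ?_ ?_ hg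
  · rintro _ ⟨i, s, rfl⟩
    exact D.isU_t i s
  · exact D.isU_one
  · intro a b _ _ ha hb
    exact D.isU_mul ha hb
  · intro a _ ha
    exact D.isU_inv ha a.mul_inv

/-- the homomorphisms from `SL₂` -/
def phi (i j : Fin 3) (h : i ≠ j) : SL(2, ZMod 7) →* (Matrix (Fin 3) (Fin 3) K)ˣ :=
  slU (D.M_sq i) (D.M_sq j) (D.M_tri i j h) (D.M_tri j i h.symm)

lemma phi_up (i j : Fin 3) (h : i ≠ j) (s : ZMod 7) : D.phi i j h (up s) = D.t i s :=
  slU_up _ _ _ _ s

lemma phi_lo (i j : Fin 3) (h : i ≠ j) (s : ZMod 7) : D.phi i j h (lo s) = D.t j (-s) :=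
  slU_lo _ _ _ _ s

lemma phi_mem (i j : Fin 3) (h : i ≠ j) (g : SL(2, ZMod 7)) : D.phi i j h g ∈ D.E := by
  have : (D.E).comap (D.phi i j h) = ⊤ := by
    apply eq_top_of_up_lo
    · intro s
      rw [Subgroup.mem_comap, phi_up]; exact D.t_mem _ _
    · intro s
      rw [Subgroup.mem_comap, phi_lo]; exact D.t_mem _ _
  have h2 : g ∈ (D.E).comap (D.phi i j h) := by rw [this]; trivial
  exact h2

end Dat

end Pool.Agent.Helper388_RankOneT
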